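import Mathlib

set_option autoImplicit false

/-! The Chevalley-Eilenberg complex of a Lie algebra on the exterior algebra. -/

namespace Pool.Agent.Y80.KM

open ExteriorAlgebra

section theta

variable {k L : Type*} [CommRing k] [AddCommGroup L] [Module k L]

theorem ext_induction {P : ExteriorAlgebra k L → Prop} (h1 : P 1)
    (hs : ∀ (c : k) w, P w → P (c • w)) (ha : ∀ u v, P u → P v → P (u + v))
    (hm : ∀ (x : L) w, P w → P (ι k x * w)) (w : ExteriorAlgebra k L) : P w := by
  induction w using CliffordAlgebra.left_induction with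
  | algebraMap r => rw [Algebra.algebraMap_eq_smul_one]; exact hs r 1 h1
  | add x y hx hy => exact ha x y hx hy
  | ι_mul x m hx => exact hm m x hx

theorem linMap_ext {M : Type*} [AddCommGroup M] [Module k M]
    {f g : ExteriorAlgebra k L →ₗ[k] M} (h1 : f 1 = g 1)
    (hm : ∀ (x : L) w, f w = g w → f (ι k x * w) = g (ι k x * w)) : f = g := by
  refine LinearMap.ext fun w => ?_
  induction w using ext_induction with
  | h1 => exact h1
  | hs c w h => rw [map_smul, map_smul, h]
  | ha u v hu hv => rw [map_add, map_add, hu, hv]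
  | hm x w h => exact hm x w h

theorem ι_anti (x y : L) (w : ExteriorAlgebra k L) :
    ι k x * (ι k y * w) = - (ι k y * (ι k x * w)) := by
  rw [← mul_assoc, ← mul_assoc, ← neg_mul]
  congr 1
  rw [eq_neg_iff_add_eq_zero]
  exact ι_add_mul_swap x y

theorem ι_sq_mul (x : L) (w : ExteriorAlgebra k L) : ι k x * (ι k x * w) = 0 := by
  rw [← mul_assoc, ι_sq_zero, zero_mul]

/-- one step of the recursion for `theta` -/
noncomputable def thetaStep (D : L →ₗ[k] L) :
    L →ₗ[k] ExteriorAlgebra k L × ExteriorAlgebra k L →ₗ[k] ExteriorAlgebra k L :=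
  LinearMap.mk₂ k (fun x p => ι k (D x) * p.1 + ι k x * p.2)
    (by intro x y p; simp only [map_add, add_mul]; abel)
    (by intro c x p; simp only [map_smul, smul_mul_assoc, smul_add])
    (by intro x p q; simp only [Prod.fst_add, Prod.snd_add, mul_add]; abel)
    (by intro c x p; simp only [Prod.smul_fst, Prod.smul_snd, mul_smul_comm, smul_add])

theorem thetaStep_apply (D : L →ₗ[k] L) (x : L) (p : ExteriorAlgebra k L × ExteriorAlgebra k L) :
    thetaStep D x p = ι k (D x) * p.1 + ι k x * p.2 := rfl

/-- The derivation of the exterior algebra of `L` that extends the endomorphism `D` of `L`: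
`theta D (x ∧ w) = D x ∧ w + x ∧ theta D w`. -/
noncomputable def theta (D : L →ₗ[k] L) : ExteriorAlgebra k L →ₗ[k] ExteriorAlgebra k L :=
  CliffordAlgebra.foldr' 0 (thetaStep D) (by
    intro m x fx
    rw [thetaStep_apply, thetaStep_apply]
    show ι k (D m) * (ι k m * x) + ι k m * (ι k (D m) * x + ι k m * fx) = _
    rw [mul_add, ι_sq_mul, add_zero, ι_anti (D m) m]
    simp) 0

@[simp] theorem theta_one (D : L →ₗ[k] L) : theta D (1 : ExteriorAlgebra k L) = 0 := by
  have := CliffordAlgebra.foldr'_algebraMap (Q := (0 : QuadraticForm k L)) (thetaStep D) (by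
    intro m x fx
    rw [thetaStep_apply, thetaStep_apply]
    show ι k (D m) * (ι k m * x) + ι k m * (ι k (D m) * x + ι k m * fx) = _
    rw [mul_add, ι_sq_mul, add_zero, ι_anti (D m) m]
    simp) 0 1
  rw [map_one, smul_zero] at this
  exact this

theorem theta_ι_mul (D : L →ₗ[k] L) (x : L) (w : ExteriorAlgebra k L) :
    theta D (ι k x * w) = ι k (D x) * w + ι k x * theta D w :=
  CliffordAlgebra.foldr'_ι_mul (Q := (0 : QuadraticForm k L)) (thetaStep D) _ 0 x w

@[simp] theorem theta_ι (D : L →ₗ[k] L) (x : L) : theta D (ι k x) = ι k (D x) := by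
  have := theta_ι_mul D x 1
  simpa using this

theorem theta_add (D D' : L →ₗ[k] L) : theta (D + D') = theta D + theta D' := by
  apply linMap_ext
  · simp
  · intro x w h
    rw [LinearMap.add_apply] at h ⊢
    rw [theta_ι_mul, theta_ι_mul, theta_ι_mul, h, LinearMap.add_apply, map_add, add_mul, mul_add]
    abel

theorem theta_smul (c : k) (D : L →ₗ[k] L) : theta (c • D) = c • theta D := by
  apply linMap_ext
  · simp
  · intro x w h
    rw [LinearMap.smul_apply] at h ⊢
    rw [theta_ι_mul, theta_ι_mul, h, LinearMap.smul_apply, map_smul, smul_mul_assoc, mul_smul_comm,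
      smul_add]

theorem theta_zero : theta (0 : L →ₗ[k] L) = 0 := by
  have := theta_smul (0 : k) (0 : L →ₗ[k] L)
  rwa [zero_smul, zero_smul] at this

/-- `theta` as a linear map -/
noncomputable def thetaL : (L →ₗ[k] L) →ₗ[k] (ExteriorAlgebra k L →ₗ[k] ExteriorAlgebra k L) where
  toFun := theta
  map_add' := theta_add
  map_smul' := by intro c D; rw [theta_smul]; rfl

@[simp] theorem thetaL_apply (D : L →ₗ[k] L) : thetaL D = theta D := rfl

theorem theta_mul (D : L →ₗ[k] L) (u v : ExteriorAlgebra k L) :
    theta D (u * v) = theta D u * v + u * theta D v := by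
  induction u using ext_induction with
  | h1 => simp
  | hs c w h => simp only [smul_mul_assoc, map_smul, h, smul_add]
  | ha u u' hu hv => rw [add_mul, map_add, hu, hv, map_add, add_mul, add_mul]; abel
  | hm x w h => rw [mul_assoc, theta_ι_mul, h, theta_ι_mul, mul_add, add_mul, mul_assoc, mul_assoc,
      mul_assoc, add_assoc]

/-- the commutator of two derivations -/
theorem theta_comm (D D' : L →ₗ[k] L) :
    theta D ∘ₗ theta D' - theta D' ∘ₗ theta D = theta (D ∘ₗ D' - D' ∘ₗ D) := by
  apply linMap_ext
  · simp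
  · intro x w h
    rw [LinearMap.sub_apply, LinearMap.comp_apply, LinearMap.comp_apply] at h ⊢
    simp only [theta_ι_mul, map_add, ← h, LinearMap.sub_apply, LinearMap.comp_apply, map_sub,
      sub_mul, mul_sub]
    abel

end theta

section ce

variable (k L : Type*) [CommRing k] [LieRing L] [LieAlgebra k L]

/-- `ad x` as a linear map over `k` -/
abbrev adL (x : L) : L →ₗ[k] L := LieAlgebra.ad k L x

variable {L}

theorem adL_add (x y : L) : adL k L (x + y) = adL k L x + adL k L y := map_add _ _ _

theorem adL_smul (c : k) (x : L) : adL k L (c • x) = c • adL k L x := map_smul _ _ _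

theorem adL_lie (x y : L) :
    adL k L ⁅x, y⁆ = adL k L x ∘ₗ adL k L y - adL k L y ∘ₗ adL k L x := by
  refine LinearMap.ext fun z => ?_
  simp [adL]

variable (L)

/-- one step of the recursion for the differential -/
noncomputable def cedStep :
    L →ₗ[k] ExteriorAlgebra k L × ExteriorAlgebra k L →ₗ[k] ExteriorAlgebra k L :=
  LinearMap.mk₂ k (fun x p => theta (adL k L x) p.1 - ι k x * p.2)
    (by
      intro x y p
      rw [adL_add, theta_add, map_add, add_mul, LinearMap.add_apply]
      abel)
    (by
      intro c x p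
      rw [adL_smul, theta_smul, map_smul, smul_mul_assoc, LinearMap.smul_apply, smul_sub])
    (by intro x p q; simp only [Prod.fst_add, Prod.snd_add, mul_add, map_add]; abel)
    (by intro c x p; simp only [Prod.smul_fst, Prod.smul_snd, mul_smul_comm, map_smul, smul_sub])

variable {L}

theorem cedStep_apply (x : L) (p : ExteriorAlgebra k L × ExteriorAlgebra k L) :
    cedStep k L x p = theta (adL k L x) p.1 - ι k x * p.2 := rfl

theorem cedStep_sq (m : L) (x : CliffordAlgebra (0 : QuadraticForm k L))
    (fx : ExteriorAlgebra k L) :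
    cedStep k L m (CliffordAlgebra.ι (0 : QuadraticForm k L) m * x, cedStep k L m (x, fx)) =
      (0 : QuadraticForm k L) m • fx := by
  rw [cedStep_apply, cedStep_apply]
  show theta (adL k L m) (ι k m * x) - ι k m * (theta (adL k L m) x - ι k m * fx) = _
  rw [theta_ι_mul, mul_sub, ι_sq_mul]
  simp [adL]

variable (L)

/-- The Chevalley-Eilenberg differential on the exterior algebra of the Lie algebra `L`:
`d 1 = 0`, `d (x ∧ w) = ad_x w - x ∧ d w`, that is
`d (x₁ ∧ ⋯ ∧ xₙ) = ∑_{i < j} (-1)^(i+j+1) [x_i, x_j] ∧ x₁ ∧ ⋯ ∧ xₙ` (without `x_i`, `x_j`). -/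
noncomputable def ced : ExteriorAlgebra k L →ₗ[k] ExteriorAlgebra k L :=
  CliffordAlgebra.foldr' (0 : QuadraticForm k L) (cedStep k L) (cedStep_sq k) 0

variable {L}

@[simp] theorem ced_one : ced k L 1 = 0 := by
  have := CliffordAlgebra.foldr'_algebraMap (Q := (0 : QuadraticForm k L)) (cedStep k L)
    (cedStep_sq k) 0 1
  rw [map_one, smul_zero] at this
  exact this

theorem ced_ι_mul (x : L) (w : ExteriorAlgebra k L) :
    ced k L (ι k x * w) = theta (adL k L x) w - ι k x * ced k L w :=
  CliffordAlgebra.foldr'_ι_mul (Q := (0 : QuadraticForm k L)) (cedStep k L) _ 0 x w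

@[simp] theorem ced_ι (x : L) : ced k L (ι k x) = 0 := by
  have := ced_ι_mul k x 1
  simpa using this

/-- derivations of `L` commute with the differential -/
theorem ced_theta (D : L →ₗ[k] L) (hD : ∀ x y, D ⁅x, y⁆ = ⁅D x, y⁆ + ⁅x, D y⁆) :
    ced k L ∘ₗ theta D = theta D ∘ₗ ced k L := by
  apply linMap_ext
  · simp
  · intro x w h
    rw [LinearMap.comp_apply, LinearMap.comp_apply] at h ⊢
    have h2 : theta D ∘ₗ theta (adL k L x) - theta (adL k L x) ∘ₗ theta D =
        theta (adL k L (D x)) := by
      rw [theta_comm]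
      congr 1
      refine LinearMap.ext fun y => ?_
      simp [adL, hD]
    have h3 := LinearMap.congr_fun h2 w
    rw [LinearMap.sub_apply, LinearMap.comp_apply, LinearMap.comp_apply] at h3
    rw [theta_ι_mul, map_add, ced_ι_mul, ced_ι_mul, ced_ι_mul, h, map_sub, theta_ι_mul, ← h3]
    abel

theorem ced_ad (x : L) : ced k L ∘ₗ theta (adL k L x) = theta (adL k L x) ∘ₗ ced k L :=
  ced_theta k _ (by intro y z; simp [adL])

/-- the differential squares to zero -/
theorem ced_ced (w : ExteriorAlgebra k L) : ced k L (ced k L w) = 0 := by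
  have : ced k L ∘ₗ ced k L = 0 := by
    apply linMap_ext
    · simp
    · intro x w h
      rw [LinearMap.comp_apply, LinearMap.zero_apply] at h ⊢
      have h2 := LinearMap.congr_fun (ced_ad k x) w
      rw [LinearMap.comp_apply, LinearMap.comp_apply] at h2
      rw [ced_ι_mul, map_sub, ced_ι_mul, h2, h, mul_zero, sub_zero, sub_self]
  exact LinearMap.congr_fun this w

end ce

end Pool.Agent.Y80.KM
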