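import Mathlib

set_option autoImplicit false

/-! Free algebras of varieties of nonassociative algebras. -/

namespace Pool.Agent.Y80.KM

/-- The free nonassociative algebra on `d` generators. -/
abbrev NF (k : Type*) [Field k] (d : ℕ) : Type _ := FreeNonUnitalNonAssocAlgebra k (Fin d)

variable {k : Type*} [Field k] {d : ℕ}

/-- The smallest ideal that contains `R`. -/
noncomputable def idealOf (R : Set (NF k d)) : Submodule k (NF k d) :=
  sInf {I | R ⊆ I ∧ ∀ a, ∀ x ∈ I, a * x ∈ I ∧ x * a ∈ I}

theorem subset_idealOf (R : Set (NF k d)) : R ⊆ idealOf R := by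
  intro r hr
  rw [idealOf, SetLike.mem_coe, Submodule.mem_sInf]
  intro I hI
  exact hI.1 hr

theorem mul_mem_idealOf (R : Set (NF k d)) {x : NF k d} (hx : x ∈ idealOf R) (a : NF k d) :
    a * x ∈ idealOf R := by
  rw [idealOf, Submodule.mem_sInf] at hx ⊢
  intro I hI
  exact (hI.2 a x (hx I hI)).1

theorem mul_mem_idealOf' (R : Set (NF k d)) {x : NF k d} (hx : x ∈ idealOf R) (a : NF k d) :
    x * a ∈ idealOf R := by
  rw [idealOf, Submodule.mem_sInf] at hx ⊢
  intro I hI
  exact (hI.2 a x (hx I hI)).2

theorem idealOf_le (R : Set (NF k d)) (I : Submodule k (NF k d)) (h1 : R ⊆ I)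
    (h2 : ∀ a, ∀ x ∈ I, a * x ∈ I ∧ x * a ∈ I) : idealOf R ≤ I :=
  sInf_le ⟨h1, h2⟩

/-- The quotient of the free nonassociative algebra by the ideal generated by `R`. -/
def QAlg (R : Set (NF k d)) : Type _ := NF k d ⧸ idealOf R

variable (R : Set (NF k d))

noncomputable instance : AddCommGroup (QAlg R) := inferInstanceAs (AddCommGroup (NF k d ⧸ idealOf R))
noncomputable instance : Module k (QAlg R) := inferInstanceAs (Module k (NF k d ⧸ idealOf R))

/-- the projection -/
noncomputable def qmk : NF k d →ₗ[k] QAlg R := (idealOf R).mkQ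

theorem qmk_surjective : Function.Surjective (qmk R) := Submodule.mkQ_surjective _

theorem qmk_eq_zero {x : NF k d} : qmk R x = 0 ↔ x ∈ idealOf R :=
  Submodule.Quotient.mk_eq_zero _

/-- the multiplication of the quotient algebra -/
noncomputable def qmul : QAlg R →ₗ[k] QAlg R →ₗ[k] QAlg R :=
  (idealOf R).liftQ
    { toFun := fun x => (idealOf R).liftQ ((qmk R).comp (LinearMap.mul k (NF k d) x)) (by
        intro y hy
        rw [LinearMap.mem_ker, LinearMap.comp_apply, LinearMap.mul_apply', qmk_eq_zero]
        exact mul_mem_idealOf R hy x)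
      map_add' := by
        intro x y
        apply Submodule.linearMap_qext
        refine LinearMap.ext fun z => ?_
        show qmk R ((x + y) * z) = qmk R (x * z) + qmk R (y * z)
        rw [add_mul, map_add]
      map_smul' := by
        intro c x
        apply Submodule.linearMap_qext
        refine LinearMap.ext fun z => ?_
        show qmk R ((c • x) * z) = c • qmk R (x * z)
        rw [smul_mul_assoc, map_smul] }
    (by
      intro x hx
      rw [LinearMap.mem_ker]
      apply Submodule.linearMap_qext
      refine LinearMap.ext fun z => ?_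
      show qmk R (x * z) = 0
      rw [qmk_eq_zero]
      exact mul_mem_idealOf' R hx z)

theorem qmul_mk (x y : NF k d) : qmul R (qmk R x) (qmk R y) = qmk R (x * y) := rfl

noncomputable instance : NonUnitalNonAssocRing (QAlg R) :=
  { (inferInstance : AddCommGroup (QAlg R)) with
    mul := fun x y => qmul R x y
    left_distrib := fun x y z => map_add (qmul R x) y z
    right_distrib := fun x y z => by
      show qmul R (x + y) z = _
      rw [map_add]
      rfl
    zero_mul := fun x => by
      show qmul R 0 x = 0
      rw [map_zero]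
      rfl
    mul_zero := fun x => map_zero (qmul R x) }

theorem mul_def (x y : QAlg R) : x * y = qmul R x y := rfl

theorem qmk_mul (x y : NF k d) : qmk R (x * y) = qmk R x * qmk R y := rfl

instance : IsScalarTower k (QAlg R) (QAlg R) :=
  ⟨fun c x y => by
    show qmul R (c • x) y = c • qmul R x y
    rw [map_smul]
    rfl⟩

instance : SMulCommClass k (QAlg R) (QAlg R) :=
  ⟨fun c x y => (map_smul (qmul R x) c y).symm⟩

/-- The component of degree `n`: the span of the images of the nonassociative words of length
`n`. -/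
noncomputable def qcomp (n : ℕ) : Submodule k (QAlg R) :=
  Submodule.span k {x | ∃ w : FreeMagma (Fin d), w.length = n ∧
    x = qmk R (MonoidAlgebra.single w 1)}

/-- The number of occurrences of each generator in a nonassociative word. -/
noncomputable def content : FreeMagma (Fin d) → (Fin d →₀ ℕ)
  | .of i => Finsupp.single i 1
  | .mul x y => content x + content y

/-- The multihomogeneous component of degree `α`: the span of the images of the nonassociative
words that contain the `i`-th generator exactly `α i` times. -/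
noncomputable def qmcomp (α : Fin d →₀ ℕ) : Submodule k (QAlg R) :=
  Submodule.span k {x | ∃ w : FreeMagma (Fin d), content w = α ∧
    x = qmk R (MonoidAlgebra.single w 1)}

/-- The relations of alternative algebras. -/
def altRel (k : Type*) [Field k] (d : ℕ) : Set (NF k d) :=
  {x | ∃ a b : NF k d, x = (a * a) * b - a * (a * b) ∨ x = (b * a) * a - b * (a * a)}

/-- The relations of Jordan algebras. -/
def jordRel (k : Type*) [Field k] (d : ℕ) : Set (NF k d) :=
  {x | ∃ a b : NF k d, x = a * b - b * a ∨ x = ((a * a) * b) * a - (a * a) * (b * a)}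

/-- The free alternative algebra on `d` generators (without unit). -/
abbrev FreeAlt (k : Type*) [Field k] (d : ℕ) : Type _ := QAlg (altRel k d)

/-- The free Jordan algebra on `d` generators (without unit). -/
abbrev FreeJord (k : Type*) [Field k] (d : ℕ) : Type _ := QAlg (jordRel k d)

theorem alt_left (a b : FreeAlt k d) : (a * a) * b = a * (a * b) := by
  obtain ⟨x, rfl⟩ := qmk_surjective _ a
  obtain ⟨y, rfl⟩ := qmk_surjective _ b
  rw [← sub_eq_zero, ← qmk_mul, ← qmk_mul, ← qmk_mul, ← qmk_mul, ← map_sub, qmk_eq_zero]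
  exact subset_idealOf _ ⟨x, y, Or.inl rfl⟩

theorem alt_right (a b : FreeAlt k d) : (b * a) * a = b * (a * a) := by
  obtain ⟨x, rfl⟩ := qmk_surjective _ a
  obtain ⟨y, rfl⟩ := qmk_surjective _ b
  rw [← sub_eq_zero, ← qmk_mul, ← qmk_mul, ← qmk_mul, ← qmk_mul, ← map_sub, qmk_eq_zero]
  exact subset_idealOf _ ⟨x, y, Or.inr rfl⟩

theorem jord_comm (a b : FreeJord k d) : a * b = b * a := by
  obtain ⟨x, rfl⟩ := qmk_surjective _ a
  obtain ⟨y, rfl⟩ := qmk_surjective _ b
  rw [← sub_eq_zero, ← qmk_mul, ← qmk_mul, ← map_sub, qmk_eq_zero]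
  exact subset_idealOf _ ⟨x, y, Or.inl rfl⟩

theorem jord_id (a b : FreeJord k d) : ((a * a) * b) * a = (a * a) * (b * a) := by
  obtain ⟨x, rfl⟩ := qmk_surjective _ a
  obtain ⟨y, rfl⟩ := qmk_surjective _ b
  rw [← sub_eq_zero, ← qmk_mul, ← qmk_mul, ← qmk_mul, ← qmk_mul, ← qmk_mul, ← map_sub,
    qmk_eq_zero]
  exact subset_idealOf _ ⟨x, y, Or.inr rfl⟩

end Pool.Agent.Y80.KM
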