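import Pool.Agent.Y80.KM.Tits
import Pool.Agent.Y80.KM.Free
import Pool.Agent.Y80.KM.CE

set_option autoImplicit false

open scoped BigOperators

/-! More definitions of project KM. -/

namespace Pool.Agent.Y80.KM

/-- the inner derivation of a Jordan algebra, `[L_a, L_b] x` -/
def jdop {J : Type*} [NonUnitalNonAssocRing J] (a b x : J) : J := a * (b * x) - b * (a * x)

section grading

variable {k A : Type*} [Field k] [NonUnitalNonAssocRing A] [Module k A]

/-- the grading of `B(A)` induced by a grading of `A` -/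
def bcomp (𝒜 : ℕ → Submodule k A) (n : ℕ) : Submodule k (BSp k A) :=
  Submodule.span k {x | ∃ i j, i + j = n ∧ ∃ a ∈ 𝒜 i, ∃ b ∈ 𝒜 j, x = wedge k A a b}

/-- the component of degree `n` and weight `μ` of the Tits type Lie algebra -/
def lcomp {N : ℕ} (T : TitsData k A N) (𝒜 : ℕ → Submodule k A) (n : ℕ) (μ : Fin N → ℤ) :
    Submodule k (TLie T) where
  carrier := {x | (x.b ∈ bcomp 𝒜 n ∧ (μ ≠ 0 → x.b = 0)) ∧
    ∀ i j, x.mat i j ∈ 𝒜 n ∧ (μ ≠ epsd i j → x.mat i j = 0)}
  add_mem' := by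
    rintro x y ⟨⟨hx1, hx2⟩, hx3⟩ ⟨⟨hy1, hy2⟩, hy3⟩
    refine ⟨⟨?_, ?_⟩, ?_⟩
    · rw [TLie.b_add]; exact add_mem hx1 hy1
    · intro h; rw [TLie.b_add, hx2 h, hy2 h, add_zero]
    · intro i j
      refine ⟨?_, ?_⟩
      · rw [TLie.mat_add]; exact add_mem (hx3 i j).1 (hy3 i j).1
      · intro h; rw [TLie.mat_add, Matrix.add_apply, (hx3 i j).2 h, (hy3 i j).2 h, add_zero]
  zero_mem' := by
    refine ⟨⟨?_, ?_⟩, ?_⟩
    · rw [TLie.b_zero]; exact zero_mem _
    · intro _; rfl
    · intro i j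
      refine ⟨?_, ?_⟩
      · rw [TLie.mat_zero]; exact zero_mem _
      · intro _; rfl
  smul_mem' := by
    rintro c x ⟨⟨hx1, hx2⟩, hx3⟩
    refine ⟨⟨?_, ?_⟩, ?_⟩
    · rw [TLie.b_smul]; exact Submodule.smul_mem _ c hx1
    · intro h; rw [TLie.b_smul, hx2 h, smul_zero]
    · intro i j
      refine ⟨?_, ?_⟩
      · rw [TLie.mat_smul]; exact Submodule.smul_mem _ c (hx3 i j).1
      · intro h; rw [TLie.mat_smul, Matrix.smul_apply, (hx3 i j).2 h, smul_zero]

end grading

section ext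

variable {k L I Γ : Type*} [Field k] [AddCommGroup L] [Module k L] [AddCommMonoid Γ]

/-- the span of the products of `p` basis elements of total degree `g` in the exterior algebra -/
def eg (b : Module.Basis I k L) (γ : I → Γ) (p : ℕ) (g : Γ) : Submodule k (ExteriorAlgebra k L) :=
  Submodule.span k {x | ∃ l : List I, l.length = p ∧ (l.map γ).sum = g ∧
    x = (l.map fun i => ExteriorAlgebra.ι k (b i)).prod}

end ext

end Pool.Agent.Y80.KM
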