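import Pool.Agent.Y80.KM.JobDefs

set_option autoImplicit false

open scoped BigOperators TensorProduct

/-! The Tits type Lie algebras: definitions. -/

namespace Pool.Agent.Y80.KM

section bspace

variable (k A : Type*) [Field k] [NonUnitalNonAssocRing A] [Module k A]

/-- the relations of `B(A)`: `a ∧ a = 0` and `ab ∧ c + bc ∧ a + ca ∧ b = 0` -/
def brel : Submodule k (A ⊗[k] A) :=
  Submodule.span k ({x | ∃ a : A, x = a ⊗ₜ[k] a} ∪
    {x | ∃ a b c : A, x = (a * b) ⊗ₜ[k] c + (b * c) ⊗ₜ[k] a + (c * a) ⊗ₜ[k] b})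

/-- `B(A)`, the quotient of `Λ²(A)` by the span of all `ab ∧ c + bc ∧ a + ca ∧ b` -/
abbrev BSp : Type _ := (A ⊗[k] A) ⧸ brel k A

/-- `a ∧ b` in `B(A)` -/
def wedge : A →ₗ[k] A →ₗ[k] BSp k A :=
  (TensorProduct.mk k A A).compr₂ (brel k A).mkQ

theorem wedge_apply (a b : A) : wedge k A a b = (brel k A).mkQ (a ⊗ₜ[k] b) := rfl

@[simp] theorem wedge_self (a : A) : wedge k A a a = 0 := by
  rw [wedge_apply, Submodule.mkQ_apply, Submodule.Quotient.mk_eq_zero]
  exact Submodule.subset_span (Or.inl ⟨a, rfl⟩)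

theorem wedge_cyc (a b c : A) :
    wedge k A (a * b) c + wedge k A (b * c) a + wedge k A (c * a) b = 0 := by
  simp only [wedge_apply]
  rw [← map_add, ← map_add, Submodule.mkQ_apply, Submodule.Quotient.mk_eq_zero]
  exact Submodule.subset_span (Or.inr ⟨a, b, c, rfl⟩)

theorem wedge_swap (a b : A) : wedge k A a b = - wedge k A b a := by
  have h := wedge_self k A (a + b)
  simp only [map_add, LinearMap.add_apply, wedge_self, zero_add, add_zero] at h
  rw [eq_neg_iff_add_eq_zero, add_comm]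
  exact h

variable {k A}

/-- maps out of `B(A)` -/
def bLift {W : Type*} [AddCommGroup W] [Module k W] (f : A →ₗ[k] A →ₗ[k] W)
    (h1 : ∀ a, f a a = 0) (h2 : ∀ a b c, f (a * b) c + f (b * c) a + f (c * a) b = 0) :
    BSp k A →ₗ[k] W :=
  (brel k A).liftQ (TensorProduct.lift f) (by
    rw [brel, Submodule.span_le]
    rintro x (⟨a, rfl⟩ | ⟨a, b, c, rfl⟩)
    · simp [h1]
    · simp [h2])

@[simp] theorem bLift_wedge {W : Type*} [AddCommGroup W] [Module k W] (f : A →ₗ[k] A →ₗ[k] W)
    (h1 : ∀ a, f a a = 0) (h2 : ∀ a b c, f (a * b) c + f (b * c) a + f (c * a) b = 0) (a b : A) :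
    bLift f h1 h2 (wedge k A a b) = f a b := by
  simp [bLift, wedge_apply]

theorem bSp_ext {W : Type*} [AddCommGroup W] [Module k W] {f g : BSp k A →ₗ[k] W}
    (h : ∀ a b, f (wedge k A a b) = g (wedge k A a b)) : f = g := by
  apply Submodule.linearMap_qext
  apply TensorProduct.ext'
  intro a b
  exact h a b

/-- the action of a derivation `δ` of `A` on `B(A)`: `a ∧ b ↦ δ a ∧ b + a ∧ δ b` -/
def bDer (δ : A →ₗ[k] A) (hδ : ∀ x y, δ (x * y) = δ x * y + x * δ y) :
    BSp k A →ₗ[k] BSp k A :=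
  bLift ((wedge k A).comp δ + (wedge k A).compl₂ δ)
    (by
      intro a
      simp only [LinearMap.add_apply, LinearMap.comp_apply, LinearMap.compl₂_apply]
      rw [wedge_swap]
      abel)
    (by
      intro a b c
      simp only [LinearMap.add_apply, LinearMap.comp_apply, LinearMap.compl₂_apply, hδ, map_add]
      have e1 := wedge_cyc k A (δ a) b c
      have e2 := wedge_cyc k A a (δ b) c
      have e3 := wedge_cyc k A a b (δ c)
      have : ∀ x1 x2 x3 x4 x5 x6 x7 x8 x9 : BSp k A, x1 + x2 + x3 = 0 → x4 + x5 + x6 = 0 →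
          x7 + x8 + x9 = 0 → (x1 + x4 + x7) + (x5 + x8 + x2) + (x9 + x3 + x6) = 0 := by
        intro x1 x2 x3 x4 x5 x6 x7 x8 x9 h1 h2 h3
        have : (x1 + x4 + x7) + (x5 + x8 + x2) + (x9 + x3 + x6) =
          (x1 + x2 + x3) + (x4 + x5 + x6) + (x7 + x8 + x9) := by abel
        rw [this, h1, h2, h3]; simp
      exact this _ _ _ _ _ _ _ _ _ e1 e2 e3)

@[simp] theorem bDer_wedge (δ : A →ₗ[k] A) (hδ : ∀ x y, δ (x * y) = δ x * y + x * δ y) (a b : A) :
    bDer δ hδ (wedge k A a b) = wedge k A (δ a) b + wedge k A a (δ b) := by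
  simp [bDer]

end bspace

section tits

variable (k A : Type*) [Field k] [NonUnitalNonAssocRing A] [Module k A]

/-- `sl_N ⊗ A`: the trace zero `N × N` matrices with entries in `A`; `X ⊗ a` is the matrix
`(X_ij a)`. -/
def slA (N : ℕ) : Submodule k (Matrix (Fin N) (Fin N) A) :=
  LinearMap.ker (Matrix.traceLinearMap (Fin N) k A)

theorem mem_slA {N : ℕ} (M : Matrix (Fin N) (Fin N) A) : M ∈ slA k A N ↔ M.trace = 0 := by
  simp [slA]

/-- Data for the Tits construction: a constant `c` and derivations `D_{a,b}` of `A`. -/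
structure TitsData (N : ℕ) where
  /-- the constant in front of the `B(A)`-part of the bracket -/
  c : k
  /-- the derivations `D_{a,b}` -/
  D : A →ₗ[k] A →ₗ[k] A →ₗ[k] A
  D_self : ∀ a x, D a a x = 0
  D_cyc : ∀ a b c x, D (a * b) c x + D (b * c) a x + D (c * a) b x = 0
  D_mul : ∀ a b x y, D a b (x * y) = D a b x * y + x * D a b y
  D_skew : ∀ a b x y, wedge k A (D a b x) y + wedge k A x (D a b y) +
    (wedge k A (D x y a) b + wedge k A a (D x y b)) = 0
  D_nat : ∀ a b x y z, D a b (D x y z) = D (D a b x) y z + D x (D a b y) z + D x y (D a b z)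
  jacobi : ∀ M M' M'' : Matrix (Fin N) (Fin N) A, M.trace = 0 → M'.trace = 0 → M''.trace = 0 →
    (cbr k (cbr k M M') M'' + cbr k (cbr k M' M'') M + cbr k (cbr k M'' M) M') +
      c • ((∑ i, ∑ j, M''.map (D (M i j) (M' j i))) + (∑ i, ∑ j, M.map (D (M' i j) (M'' j i))) +
        (∑ i, ∑ j, M'.map (D (M'' i j) (M j i)))) = 0

variable {k A}
variable {N : ℕ} (T : TitsData k A N)

/-- `b ↦ D_b`, `D_{a ∧ b} = D_{a,b}` -/
def TitsData.Dact : BSp k A →ₗ[k] A →ₗ[k] A :=
  bLift T.D (fun a => LinearMap.ext fun x => T.D_self a x)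
    (fun a b c => LinearMap.ext fun x => by simpa using T.D_cyc a b c x)

@[simp] theorem TitsData.Dact_wedge (a b : A) : T.Dact (wedge k A a b) = T.D a b := by
  simp [TitsData.Dact]

theorem TitsData.Dact_mul (b : BSp k A) (x y : A) :
    T.Dact b (x * y) = T.Dact b x * y + x * T.Dact b y := by
  obtain ⟨t, rfl⟩ := Submodule.mkQ_surjective _ b
  induction t using TensorProduct.induction_on with
  | zero => simp
  | tmul a b =>
    have := T.Dact_wedge a b
    rw [wedge_apply] at this
    rw [this, T.D_mul]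
  | add u v hu hv =>
    simp only [map_add, LinearMap.add_apply, hu, hv, add_mul, mul_add]
    abel

/-- the action of `B(A)` on itself: `b · (x ∧ y) = D_b x ∧ y + x ∧ D_b y` -/
def TitsData.Bact : BSp k A →ₗ[k] BSp k A →ₗ[k] BSp k A where
  toFun b := bDer (T.Dact b) (T.Dact_mul b)
  map_add' b b' := bSp_ext fun x y => by
    simp only [bDer_wedge, map_add, LinearMap.add_apply]
    abel
  map_smul' c b := bSp_ext fun x y => by
    simp only [bDer_wedge, map_smul, LinearMap.smul_apply, RingHom.id_apply, smul_add]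

@[simp] theorem TitsData.Bact_wedge (b : BSp k A) (x y : A) :
    T.Bact b (wedge k A x y) = wedge k A (T.Dact b x) y + wedge k A x (T.Dact b y) :=
  bDer_wedge _ (T.Dact_mul b) x y

/-- `∑ M_ij ∧ M'_ji` -/
def tw (k : Type*) {A : Type*} [Field k] [NonUnitalNonAssocRing A] [Module k A] {N : ℕ}
    (M M' : Matrix (Fin N) (Fin N) A) : BSp k A :=
  ∑ i, ∑ j, wedge k A (M i j) (M' j i)

/-- The Tits type Lie algebra `sl_N ⊗ A ⊕ B(A)`. -/
def TLie (_T : TitsData k A N) : Type _ := slA k A N × BSp k A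

instance : AddCommGroup (TLie T) := inferInstanceAs (AddCommGroup (slA k A N × BSp k A))
instance : Module k (TLie T) := inferInstanceAs (Module k (slA k A N × BSp k A))

/-- the matrix part of an element -/
def TLie.mat {T : TitsData k A N} (x : TLie T) : Matrix (Fin N) (Fin N) A := x.1.1

/-- the `B(A)` part of an element -/
def TLie.b {T : TitsData k A N} (x : TLie T) : BSp k A := x.2

theorem trace_cbr [CharZero k] (hN : N ≠ 0) (M M' : Matrix (Fin N) (Fin N) A) :
    (cbr k M M').trace = 0 := by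
  have hN' : (N : k) ≠ 0 := by exact_mod_cast hN
  rw [cbr, Matrix.trace_sub, Matrix.trace_diagonal]
  simp only [Finset.sum_const, Finset.card_univ, Fintype.card_fin]
  rw [← Nat.cast_smul_eq_nsmul k, smul_smul, mul_inv_cancel₀ hN', one_smul, sub_self]

theorem trace_map_linear (δ : A →ₗ[k] A) (M : Matrix (Fin N) (Fin N) A) :
    (M.map δ).trace = δ M.trace := by
  simp [Matrix.trace]

/-- the element with given parts -/
def TLie.mk (M : Matrix (Fin N) (Fin N) A) (h : M.trace = 0) (b : BSp k A) : TLie T :=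
  (⟨M, (mem_slA k A M).mpr h⟩, b)

@[simp] theorem TLie.mat_mk (M : Matrix (Fin N) (Fin N) A) (h : M.trace = 0) (b : BSp k A) :
    (TLie.mk T M h b).mat = M := rfl
@[simp] theorem TLie.b_mk (M : Matrix (Fin N) (Fin N) A) (h : M.trace = 0) (b : BSp k A) :
    (TLie.mk T M h b).b = b := rfl

theorem TLie.trace_mat (x : TLie T) : x.mat.trace = 0 := (mem_slA k A _).mp x.1.2

variable {T} in
theorem TLie.ext {x y : TLie T} (h1 : x.mat = y.mat) (h2 : x.b = y.b) : x = y :=
  Prod.ext (Subtype.ext h1) h2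

@[simp] theorem TLie.mat_add (x y : TLie T) : (x + y).mat = x.mat + y.mat := rfl
@[simp] theorem TLie.b_add (x y : TLie T) : (x + y).b = x.b + y.b := rfl
@[simp] theorem TLie.mat_sub (x y : TLie T) : (x - y).mat = x.mat - y.mat := rfl
@[simp] theorem TLie.b_sub (x y : TLie T) : (x - y).b = x.b - y.b := rfl
@[simp] theorem TLie.mat_neg (x : TLie T) : (-x).mat = -x.mat := rfl
@[simp] theorem TLie.b_neg (x : TLie T) : (-x).b = -x.b := rfl
@[simp] theorem TLie.mat_smul (c : k) (x : TLie T) : (c • x).mat = c • x.mat := rfl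
@[simp] theorem TLie.b_smul (c : k) (x : TLie T) : (c • x).b = c • x.b := rfl
@[simp] theorem TLie.mat_zero : (0 : TLie T).mat = 0 := rfl
@[simp] theorem TLie.b_zero : (0 : TLie T).b = 0 := rfl

/-- The bracket of the Tits type Lie algebra: for trace zero matrices `M`, `M'` over `A` and
`b`, `b'` in `B(A)`, `[M, M']` is the traceless part of `M M' - M' M` plus `c ∑ M_ij ∧ M'_ji`,
`[b, M'] = D_b M'` (entrywise) and `[b, b'] = D_b b'`. -/
noncomputable def TLie.br [CharZero k] [NeZero N] (x y : TLie T) : TLie T :=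
  TLie.mk T (cbr k x.mat y.mat + y.mat.map (T.Dact x.b) - x.mat.map (T.Dact y.b))
    (by
      rw [Matrix.trace_sub, Matrix.trace_add, trace_cbr (NeZero.ne N), trace_map_linear,
        trace_map_linear, TLie.trace_mat, TLie.trace_mat]
      simp)
    (T.c • tw k x.mat y.mat + T.Bact x.b y.b)

@[simp] theorem TLie.mat_br [CharZero k] [NeZero N] (x y : TLie T) : (TLie.br T x y).mat =
    cbr k x.mat y.mat + y.mat.map (T.Dact x.b) - x.mat.map (T.Dact y.b) := rfl
@[simp] theorem TLie.b_br [CharZero k] [NeZero N] (x y : TLie T) : (TLie.br T x y).b =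
    T.c • tw k x.mat y.mat + T.Bact x.b y.b := rfl

/-- `X M - M X` for a scalar matrix `X` and a matrix `M` over `A` -/
def scomm (X : Matrix (Fin N) (Fin N) k) (M : Matrix (Fin N) (Fin N) A) :
    Matrix (Fin N) (Fin N) A :=
  Matrix.of fun i j => ∑ l, X i l • M l j - ∑ l, X l j • M i l

theorem trace_scomm (X : Matrix (Fin N) (Fin N) k) (M : Matrix (Fin N) (Fin N) A) :
    (scomm X M).trace = 0 := by
  rw [scomm, Matrix.trace]
  simp only [Matrix.diag_apply, Matrix.of_apply, Finset.sum_sub_distrib]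
  rw [Finset.sum_comm, sub_self]

/-- The action of the scalar `N × N` matrix `X` on `sl_N ⊗ A ⊕ B(A)`: `(M, b) ↦ (X M - M X, 0)`. -/
def glAct (X : Matrix (Fin N) (Fin N) k) : TLie T →ₗ[k] TLie T where
  toFun x := TLie.mk T (scomm X x.mat) (trace_scomm X x.mat) 0
  map_add' x y := by
    apply TLie.ext
    · ext i j
      simp only [TLie.mat_mk, TLie.mat_add, scomm, Matrix.of_apply, Matrix.add_apply, smul_add,
        Finset.sum_add_distrib]
      abel
    · simp
  map_smul' c x := by
    apply TLie.ext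
    · ext i j
      simp only [TLie.mat_mk, TLie.mat_smul, scomm, Matrix.of_apply, Matrix.smul_apply, smul_sub,
        Finset.smul_sum, smul_smul, mul_comm c, RingHom.id_apply]
    · simp

@[simp] theorem mat_glAct (X : Matrix (Fin N) (Fin N) k) (x : TLie T) :
    (glAct T X x).mat = scomm X x.mat := rfl
@[simp] theorem b_glAct (X : Matrix (Fin N) (Fin N) k) (x : TLie T) : (glAct T X x).b = 0 := rfl

end tits

end Pool.Agent.Y80.KM
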