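import Pool.Agent.Y80.KM.HDefs
import Pool.Agent.Y80.KM.Tits
import Pool.Agent.Y80.KM.Defs2

set_option autoImplicit false

open scoped BigOperators TensorProduct

/-! Abstract characterisations of free alternative algebras, free Jordan algebras and of the Lie
algebras `ABG(A)` and `TAG(J)`. -/

namespace Pool.Agent.Y80.KM

universe u

section free

/-- alternative algebras -/
def IsAlt (A : Type*) [NonUnitalNonAssocRing A] : Prop :=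
  ∀ p q : A, (p * p) * q = p * (p * q) ∧ (q * p) * p = q * (p * p)

/-- Jordan algebras -/
def IsJord (J : Type*) [NonUnitalNonAssocRing J] : Prop :=
  ∀ u v : J, u * v = v * u ∧ ((u * u) * v) * u = (u * u) * (v * u)

variable (k : Type u) [Field k]

/-- `A` is the free alternative algebra on the elements `x i`. -/
def IsFreeAlt {A : Type u} [NonUnitalNonAssocRing A] [Module k A] {d : ℕ} (x : Fin d → A) : Prop :=
  IsAlt A ∧ ∀ (B : Type u) [NonUnitalNonAssocRing B] [Module k B] [IsScalarTower k B B]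
    [SMulCommClass k B B], IsAlt B → ∀ f : Fin d → B, ∃! φ : A →ₙₐ[k] B, ∀ i, φ (x i) = f i

/-- `J` is the free Jordan algebra on the elements `x i`. -/
def IsFreeJord {J : Type u} [NonUnitalNonAssocRing J] [Module k J] {d : ℕ} (x : Fin d → J) : Prop :=
  IsJord J ∧ ∀ (B : Type u) [NonUnitalNonAssocRing B] [Module k B] [IsScalarTower k B B]
    [SMulCommClass k B B], IsJord B → ∀ f : Fin d → B, ∃! φ : J →ₙₐ[k] B, ∀ i, φ (x i) = f i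

end free

section lie

/-- `sl_N(k)` -/
abbrev Sl (N : ℕ) (k : Type*) [CommRing k] : Type _ := LieAlgebra.SpecialLinear.sl (Fin N) k

variable {k A L : Type*} [Field k] [NonUnitalNonAssocRing A] [Module k A] [LieRing L]
  [LieAlgebra k L] {N : ℕ}

/-- The maps `s : sl_N ⊗ A → L`, `(X, a) ↦ s X a`, and `w : B(A) → L` identify `L` with
`sl_N ⊗ A ⊕ B(A)`. -/
def IsSum (s : Sl N k →ₗ[k] A →ₗ[k] L) (w : BSp k A →ₗ[k] L) : Prop :=
  Function.Bijective (LinearMap.coprod (TensorProduct.lift s) w)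

/-- The bracket of elements of `sl_3 ⊗ A` in `ABG(A)`:
`[X ⊗ p, Y ⊗ q] = [X, Y] ⊗ (p · q) + {X, Y} ⊗ [p, q] + (1/3) tr(XY) p ∧ q`, where
`Z = {X, Y} = (1/2) (XY + YX) - (1/3) tr(XY)` and `p · q = (1/2) (pq + qp)`. -/
def BrABG (s : Sl 3 k →ₗ[k] A →ₗ[k] L) (w : BSp k A →ₗ[k] L) : Prop :=
  ∀ (X Y Z : Sl 3 k) (p q : A),
    Z.1 = (2 : k)⁻¹ • (X.1 * Y.1 + Y.1 * X.1) - ((3 : k)⁻¹ * (X.1 * Y.1).trace) • 1 →
    ⁅s X p, s Y q⁆ = s ⁅X, Y⁆ ((2 : k)⁻¹ • (p * q + q * p)) + s Z (p * q - q * p) +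
      ((3 : k)⁻¹ * (X.1 * Y.1).trace) • w (wedge k A p q)

/-- The bracket of elements of `sl_2 ⊗ J` in `TAG(J)`:
`[X ⊗ u, Y ⊗ v] = [X, Y] ⊗ u v + 2 tr(XY) u ∧ v`. -/
def BrTAG (s : Sl 2 k →ₗ[k] A →ₗ[k] L) (w : BSp k A →ₗ[k] L) : Prop :=
  ∀ (X Y : Sl 2 k) (u v : A),
    ⁅s X u, s Y v⁆ = s ⁅X, Y⁆ (u * v) + (2 * (X.1 * Y.1).trace) • w (wedge k A u v)

/-- The bracket with elements of `B(A)`: `[p ∧ q, X ⊗ r] = X ⊗ D_{p,q} r` and
`[p ∧ q, r ∧ t] = D_{p,q} r ∧ t + r ∧ D_{p,q} t`. -/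
def BrB (D : A → A → A → A) (s : Sl N k →ₗ[k] A →ₗ[k] L) (w : BSp k A →ₗ[k] L) : Prop :=
  ∀ p q r : A, (∀ X : Sl N k, ⁅w (wedge k A p q), s X r⁆ = s X (D p q r)) ∧
    ∀ t : A, ⁅w (wedge k A p q), w (wedge k A r t)⁆ =
      w (wedge k A (D p q r) t + wedge k A r (D p q t))

/-- `L = sl_3 ⊗ A ⊕ B(A)` is the Allison-Benkart-Gao Lie algebra of the alternative algebra
`A`. -/
def IsABG (s : Sl 3 k →ₗ[k] A →ₗ[k] L) (w : BSp k A →ₗ[k] L) : Prop :=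
  IsSum s w ∧ BrABG s w ∧ BrB dop s w

/-- `L = sl_2 ⊗ J ⊕ B(J)` is the Tits-Allison-Gao Lie algebra of the Jordan algebra `J`. -/
def IsTAG (s : Sl 2 k →ₗ[k] A →ₗ[k] L) (w : BSp k A →ₗ[k] L) : Prop :=
  IsSum s w ∧ BrTAG s w ∧ BrB jdop s w

/-- The operators `E X`, `X ∈ sl_N`, are derivations of `L`, and they act by
`X · (Y ⊗ a) = [X, Y] ⊗ a`, `X · b = 0` on `L = sl_N ⊗ A ⊕ B(A)`. -/
structure IsSlAct (s : Sl N k →ₗ[k] A →ₗ[k] L) (w : BSp k A →ₗ[k] L)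
    (E : Sl N k → L →ₗ[k] L) : Prop where
  der : ∀ X x y, E X ⁅x, y⁆ = ⁅E X x, y⁆ + ⁅x, E X y⁆
  act_s : ∀ X Y a, E X (s Y a) = s ⁅X, Y⁆ a
  act_w : ∀ X b, E X (w b) = 0

/-- For the action `E` of `sl_N` on `H_p(L, k)`: `H_p(L, k)` has a nonzero invariant vector or a
submodule isomorphic to the adjoint module. -/
def HasComp (E : Sl N k → L →ₗ[k] L) (hE : ∀ X x y, E X ⁅x, y⁆ = ⁅E X x, y⁆ + ⁅x, E X y⁆)
    (p : ℕ) : Prop :=
  (∃ m : LieHomology k L p, m ≠ 0 ∧ ∀ X, hact (E X) (hE X) p m = 0) ∨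
  (∃ f : Sl N k →ₗ[k] LieHomology k L p, Function.Injective f ∧
    ∀ X Y, f ⁅X, Y⁆ = hact (E X) (hE X) p (f Y))

end lie

end Pool.Agent.Y80.KM
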