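import Pool.Agent.Y80.KM.HStruct
import Pool.Agent.Y484.KM.TL
import Pool.Agent.Y759.KM.Jord
import Pool.Agent.Y46.KM.Alt1
import Pool.Agent.Y26.KM.ALT2

set_option autoImplicit false
set_option linter.unusedSectionVars false

open scoped BigOperators TensorProduct

/-! The Tits type Lie algebras of alternative and Jordan algebras. -/

namespace Pool.Agent.Y80.KM

/-! ### the Lie algebra structure -/

section lie

variable {k A : Type*} [Field k] [CharZero k] [NonUnitalNonAssocRing A] [Module k A]
  [IsScalarTower k A A] [SMulCommClass k A A] {N : ℕ} [NeZero N] (T : TitsData k A N)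

noncomputable instance : LieRing (TLie T) :=
  { (inferInstance : AddCommGroup (TLie T)) with
    bracket := TLie.br T
    add_lie := Pool.Agent.Y484.KM.br_add_left T
    lie_add := Pool.Agent.Y484.KM.br_add_right T
    lie_self := Pool.Agent.Y484.KM.br_self T
    leibniz_lie := Pool.Agent.Y484.KM.br_jacobi T T.D_nat }

theorem lie_eq (x y : TLie T) : ⁅x, y⁆ = TLie.br T x y := rfl

noncomputable instance : LieAlgebra k (TLie T) :=
  { (inferInstance : Module k (TLie T)) with
    lie_smul := Pool.Agent.Y484.KM.br_smul_right T }

/-- the action of `gl_N` as a linear map -/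
noncomputable def actL : Matrix (Fin N) (Fin N) k →ₗ[k] (TLie T →ₗ[k] TLie T) where
  toFun := glAct T
  map_add' := Pool.Agent.Y484.KM.glAct_add T
  map_smul' := Pool.Agent.Y484.KM.glAct_smul T

@[simp] theorem actL_apply (X : Matrix (Fin N) (Fin N) k) : actL T X = glAct T X := rfl

end lie

/-! ### alternative algebras -/

section alt

variable {k A : Type*} [Field k] [CharZero k] [NonUnitalNonAssocRing A] [Module k A]
  [IsScalarTower k A A] [SMulCommClass k A A]

variable (k A) in
/-- `D_{p,q} = [L_p,L_q] + [R_p,R_q] + [L_p,R_q]` as a trilinear map -/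
noncomputable def dopL : A →ₗ[k] A →ₗ[k] A →ₗ[k] A :=
  LinearMap.mk₂ k
    (fun p q =>
      { toFun := fun r => dop p q r
        map_add' := fun r s => by simp only [dop, mul_add, add_mul]; abel
        map_smul' := fun c r => by
          simp only [dop, mul_smul_comm, smul_mul_assoc, smul_sub, smul_add, RingHom.id_apply] })
    (by
      intro p p' q
      ext r
      show dop (p + p') q r = dop p q r + dop p' q r
      simp only [dop, mul_add, add_mul]
      abel)
    (by
      intro c p q
      ext r
      show dop (c • p) q r = c • dop p q r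
      simp only [dop, mul_smul_comm, smul_mul_assoc, smul_sub, smul_add])
    (by
      intro p q q'
      ext r
      show dop p (q + q') r = dop p q r + dop p q' r
      simp only [dop, mul_add, add_mul]
      abel)
    (by
      intro c p q
      ext r
      show dop p (c • q) r = c • dop p q r
      simp only [dop, mul_smul_comm, smul_mul_assoc, smul_sub, smul_add])

@[simp] theorem dopL_apply (p q r : A) : dopL k A p q r = dop p q r := rfl

theorem dop_nat_of (δ : A →ₗ[k] A) (hδ : ∀ x y, δ (x * y) = δ x * y + x * δ y) (x y z : A) :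
    δ (dop x y z) = dop (δ x) y z + dop x (δ y) z + dop x y (δ z) := by
  simp only [dop, map_add, map_sub, hδ, mul_add, add_mul]
  abel

variable (k A) in
/-- The data of the Allison-Benkart-Gao Lie algebra of an alternative algebra. -/
noncomputable def abgData (h1 : ∀ a b : A, (a * a) * b = a * (a * b))
    (h2 : ∀ a b : A, (b * a) * a = b * (a * a)) : TitsData k A 3 where
  c := (3 : k)⁻¹
  D := dopL k A
  D_self a x := Pool.Agent.Y46.KM.dop_self h1 h2 a x
  D_cyc a b c x := Pool.Agent.Y46.KM.dop_cyc h1 h2 a b c x
  D_mul a b x y := Pool.Agent.Y46.KM.dop_mul h1 h2 a b x y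
  D_skew a b x y := Pool.Agent.Y46.KM.dop_skew h1 h2 (wedge k A) (wedge_self k A)
    (wedge_cyc k A) a b x y
  D_nat a b x y z := dop_nat_of (dopL k A a b)
    (Pool.Agent.Y46.KM.dop_mul h1 h2 a b) x y z
  jacobi M M' M'' h h' h'' := by
    have := Pool.Agent.Y26.KM.jacobi3 (k := k) h1 h2 M M' M'' h h' h''
    have e : ∀ M M' P : Matrix (Fin 3) (Fin 3) A,
        ∑ i, ∑ j, P.map (dopL k A (M i j) (M' j i)) = dmat M M' P := by
      intro M M' P
      ext a b
      simp only [dmat, Matrix.of_apply, Matrix.sum_apply, Matrix.map_apply, dopL_apply]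
    simp only [e]
    exact this

end alt

/-! ### Jordan algebras -/

section jord

variable {k J : Type*} [Field k] [CharZero k] [NonUnitalNonAssocRing J] [Module k J]
  [IsScalarTower k J J] [SMulCommClass k J J]

variable (k J) in
/-- `[L_a, L_b]` as a trilinear map -/
noncomputable def jdopL : J →ₗ[k] J →ₗ[k] J →ₗ[k] J :=
  LinearMap.mk₂ k
    (fun p q =>
      { toFun := fun r => jdop p q r
        map_add' := fun r s => by simp only [jdop, mul_add]; abel
        map_smul' := fun c r => by
          simp only [jdop, mul_smul_comm, smul_sub, RingHom.id_apply] })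
    (by
      intro p p' q
      ext r
      show jdop (p + p') q r = jdop p q r + jdop p' q r
      simp only [jdop, mul_add, add_mul]
      abel)
    (by
      intro c p q
      ext r
      show jdop (c • p) q r = c • jdop p q r
      simp only [jdop, mul_smul_comm, smul_mul_assoc, smul_sub])
    (by
      intro p q q'
      ext r
      show jdop p (q + q') r = jdop p q r + jdop p q' r
      simp only [jdop, mul_add, add_mul]
      abel)
    (by
      intro c p q
      ext r
      show jdop p (c • q) r = c • jdop p q r
      simp only [jdop, mul_smul_comm, smul_mul_assoc, smul_sub])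

@[simp] theorem jdopL_apply (p q r : J) : jdopL k J p q r = jdop p q r := rfl

theorem jdop_nat_of (δ : J →ₗ[k] J) (hδ : ∀ x y, δ (x * y) = δ x * y + x * δ y) (x y z : J) :
    δ (jdop x y z) = jdop (δ x) y z + jdop x (δ y) z + jdop x y (δ z) := by
  simp only [jdop, map_sub, hδ, mul_add, add_mul]
  abel

variable (k J) in
/-- The data of the Tits-Allison-Gao Lie algebra of a Jordan algebra. -/
noncomputable def tagData (hc : ∀ a b : J, a * b = b * a)
    (hj : ∀ a b : J, ((a * a) * b) * a = (a * a) * (b * a)) : TitsData k J 2 where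
  c := 2
  D := jdopL k J
  D_self a x := by simp [jdop]
  D_cyc a b c x := Pool.Agent.Y759.KM.jdop_cyc k hc hj a b c x
  D_mul a b x y := Pool.Agent.Y759.KM.jdop_mul k hc hj a b x y
  D_skew a b x y := Pool.Agent.Y759.KM.jdop_skew hc (wedge k J) (wedge_self k J)
    (wedge_cyc k J) a b x y
  D_nat a b x y z := jdop_nat_of (jdopL k J a b)
    (Pool.Agent.Y759.KM.jdop_mul k hc hj a b) x y z
  jacobi M M' M'' h h' h'' := by
    have := Pool.Agent.Y759.KM.jacobi2 (k := k) hc M M' M'' h h' h''
    have e : ∀ M M' P : Matrix (Fin 2) (Fin 2) J,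
        ∑ i, ∑ j, P.map (jdopL k J (M i j) (M' j i)) =
          ∑ i, ∑ j, P.map (jdop (M i j) (M' j i)) := by
      intro M M' P
      rfl
    simp only [e]
    exact this

end jord

end Pool.Agent.Y80.KM
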