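import Pool.Agent.Y80.KM.Inst
import Pool.Agent.Y936.KM.LGR
import Pool.Agent.Y779.KM.Bgr

set_option autoImplicit false
set_option linter.unusedSectionVars false

open scoped BigOperators

/-! The Tits type Lie algebra of a graded algebra, with a homogeneous basis of weight vectors. -/

namespace Pool.Agent.Y80.KM

universe u

section hdata

variable {k A : Type u} [Field k] [CharZero k] [NonUnitalNonAssocRing A] [Module k A]
  [IsScalarTower k A A] [SMulCommClass k A A] {N : ℕ} [NeZero N] (T : TitsData k A N)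
  (𝒜 : ℕ → Submodule k A)

/-- a grading of `A` that is compatible with the operators `D_{a,b}` -/
structure GrData : Prop where
  int : DirectSum.IsInternal 𝒜
  mul : ∀ m n, ∀ x ∈ 𝒜 m, ∀ y ∈ 𝒜 n, x * y ∈ 𝒜 (m + n)
  D : ∀ m n l, ∀ x ∈ 𝒜 m, ∀ y ∈ 𝒜 n, ∀ z ∈ 𝒜 l, T.D x y z ∈ 𝒜 (m + n + l)
  fin : ∀ n, FiniteDimensional k (𝒜 n)
  zero : 𝒜 0 = ⊥

/-- index set of a homogeneous basis -/
def HIdx : Type u :=
  Σ p : ℕ × (Fin N → ℤ), ULift.{u} (Fin (Module.finrank k (lcomp T 𝒜 p.1 p.2)))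

/-- degree and weight -/
def hγ (i : HIdx T 𝒜) : ℕ × (Fin N → ℤ) := i.1

variable {T 𝒜}

/-- a basis of a component -/
noncomputable def cbasis (h : GrData T 𝒜) (p : ℕ × (Fin N → ℤ)) :
    Module.Basis (ULift.{u} (Fin (Module.finrank k (lcomp T 𝒜 p.1 p.2)))) k
      (lcomp T 𝒜 p.1 p.2) :=
  haveI := Pool.Agent.Y936.KM.lcomp_finite T 𝒜 h.fin p.1 p.2
  (Module.finBasis k (lcomp T 𝒜 p.1 p.2)).reindex Equiv.ulift.symm

/-- a homogeneous basis of weight vectors -/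
noncomputable def hbasis (h : GrData T 𝒜) : Module.Basis (HIdx T 𝒜) k (TLie T) :=
  (Pool.Agent.Y936.KM.lcomp_internal T 𝒜 h.int
    (Pool.Agent.Y779.KM.bcomp_internal 𝒜 h.int h.mul)).collectedBasis (cbasis h)

theorem hbasis_coe (h : GrData T 𝒜) (i : HIdx T 𝒜) : hbasis h i = (cbasis h i.1 i.2 : TLie T) := by
  exact congrFun (DirectSum.IsInternal.collectedBasis_coe _ (cbasis h)) i

theorem hbasis_mem (h : GrData T 𝒜) (i : HIdx T 𝒜) :
    hbasis h i ∈ lcomp T 𝒜 (hγ T 𝒜 i).1 (hγ T 𝒜 i).2 := by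
  rw [hbasis_coe]
  exact (cbasis h i.1 i.2).2

theorem hsp_eq (h : GrData T 𝒜) (p : ℕ × (Fin N → ℤ)) :
    hsp (hbasis h) (hγ T 𝒜) p = lcomp T 𝒜 p.1 p.2 := by
  apply le_antisymm
  · rw [hsp, Submodule.span_le]
    rintro _ ⟨i, hi, rfl⟩
    have := hbasis_mem h i
    rw [show hγ T 𝒜 i = p from hi] at this
    exact this
  · intro x hx
    have h1 := (cbasis h p).sum_repr ⟨x, hx⟩
    have h2 := congrArg (Submodule.subtype _) h1
    rw [map_sum] at h2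
    simp only [map_smul, Submodule.subtype_apply] at h2
    rw [← h2]
    apply Submodule.sum_mem
    intro a _
    apply Submodule.smul_mem
    refine Submodule.subset_span ⟨⟨p, a⟩, rfl, ?_⟩
    exact hbasis_coe h ⟨p, a⟩

theorem card_hγ (p : ℕ × (Fin N → ℤ)) :
    {i | hγ T 𝒜 i = p}.ncard = Module.finrank k (lcomp T 𝒜 p.1 p.2) := by
  rw [← Nat.card_coe_set_eq]
  have e : {i : HIdx T 𝒜 // i.1 = p} ≃
      ULift.{u} (Fin (Module.finrank k (lcomp T 𝒜 p.1 p.2))) := Equiv.sigmaSubtype p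
  rw [show Nat.card ↑{i | hγ T 𝒜 i = p} = Nat.card {i : HIdx T 𝒜 // i.1 = p} from rfl,
    Nat.card_congr e, Nat.card_ulift, Nat.card_fin]

theorem finite_hγ (p : ℕ × (Fin N → ℤ)) : {i | hγ T 𝒜 i = p}.Finite := by
  have e : {i : HIdx T 𝒜 // i.1 = p} ≃
      ULift.{u} (Fin (Module.finrank k (lcomp T 𝒜 p.1 p.2))) := Equiv.sigmaSubtype p
  have : Finite {i : HIdx T 𝒜 // i.1 = p} := Finite.of_equiv _ e.symm
  exact this

theorem lcomp_ne_bot (i : HIdx T 𝒜) : lcomp T 𝒜 (hγ T 𝒜 i).1 (hγ T 𝒜 i).2 ≠ ⊥ := by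
  intro h0
  have h1 : Module.finrank k (lcomp T 𝒜 i.1.1 i.1.2) = 0 := by
    rw [show lcomp T 𝒜 i.1.1 i.1.2 = ⊥ from h0]
    exact finrank_bot k _
  have h2 := i.2.down.2
  omega

theorem hγ_weight (i : HIdx T 𝒜) :
    (hγ T 𝒜 i).2 = 0 ∨ ∃ a b : Fin N, a ≠ b ∧ (hγ T 𝒜 i).2 = epsd a b := by
  by_contra hcon
  push Not at hcon
  apply lcomp_ne_bot i
  apply Pool.Agent.Y936.KM.lcomp_eq_bot T 𝒜 _ _ _ hcon.1
  intro a b hab
  rcases eq_or_ne a b with rfl | hne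
  · rw [Pool.Agent.Y936.KM.epsd_self] at hab
    exact hcon.1 hab
  · exact hcon.2 a b hne hab

theorem hγ_sum (i : HIdx T 𝒜) : ∑ j, (hγ T 𝒜 i).2 j = 0 := by
  rcases hγ_weight i with h | ⟨a, b, -, h⟩
  · rw [h]; simp
  · rw [h]; simp [epsd, Finset.sum_sub_distrib]

theorem hγ_pos (h : GrData T 𝒜) (i : HIdx T 𝒜) : 1 ≤ (hγ T 𝒜 i).1 := by
  by_contra hcon
  have h0 : (hγ T 𝒜 i).1 = 0 := by omega
  apply lcomp_ne_bot i
  rw [h0, eq_bot_iff]
  rintro x ⟨⟨hx1, -⟩, hx3⟩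
  rw [Submodule.mem_bot]
  apply TLie.ext
  · ext a b
    have := (hx3 a b).1
    rw [h.zero, Submodule.mem_bot] at this
    rw [this]
    rfl
  · rw [(Pool.Agent.Y779.KM.bcomp_one 𝒜 h.zero).1, Submodule.mem_bot] at hx1
    rw [hx1]
    rfl

theorem hγ_fin (n : ℕ) : {i | (hγ T 𝒜 i).1 = n}.Finite := by
  have hW : (Set.range fun q : Fin N × Fin N => (epsd q.1 q.2 : Fin N → ℤ)).Finite :=
    Set.finite_range _
  have : {i | (hγ T 𝒜 i).1 = n} ⊆ ⋃ μ ∈ (Set.range fun q : Fin N × Fin N =>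
      (epsd q.1 q.2 : Fin N → ℤ)), {i | hγ T 𝒜 i = (n, μ)} := by
    intro i hi
    have hi' : (hγ T 𝒜 i).1 = n := hi
    simp only [Set.mem_iUnion]
    refine ⟨(hγ T 𝒜 i).2, ?_, ?_⟩
    · rcases hγ_weight i with h | ⟨a, b, -, h⟩
      · refine ⟨(0, 0), ?_⟩
        rw [h]
        exact Pool.Agent.Y936.KM.epsd_self 0
      · exact ⟨(a, b), h.symm⟩
    · show hγ T 𝒜 i = _
      rw [← hi']
  exact (hW.biUnion fun μ _ => finite_hγ _).subset this

/-- The Tits type Lie algebra with its homogeneous basis and the action of `gl_N`. -/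
noncomputable def tData (h : GrData T 𝒜) : HData k (TLie T) N (HIdx T 𝒜) where
  b := hbasis h
  γ := hγ T 𝒜
  hbr i j := by
    rw [hsp_eq, lie_eq]
    exact Pool.Agent.Y936.KM.lcomp_br T 𝒜 h.mul h.D (hbasis_mem h i) (hbasis_mem h j)
  hpos := hγ_pos h
  hfin := hγ_fin
  act := actL T
  hder X x y := Pool.Agent.Y484.KM.glAct_br T X x y
  hlie X Y := Pool.Agent.Y484.KM.glAct_comm T X Y
  hone := Pool.Agent.Y484.KM.glAct_one T
  hsh s i j := by
    rw [hsp_eq]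
    have := Pool.Agent.Y936.KM.lcomp_glAct T 𝒜 (hbasis_mem h s) i j
    simpa using this
  hwt s j := Pool.Agent.Y936.KM.lcomp_weight T 𝒜 (hbasis_mem h s) j

end hdata

end Pool.Agent.Y80.KM
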