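import Pool.Agent.Y80.KM.Free

set_option autoImplicit false

open scoped BigOperators

/-! Characters of virtual `GL_d × PSL_2`-modules and the pair `(a(V), b(V))` of Kashuba and
Mathieu. -/

namespace Pool.Agent.Y80.KM

/-- Characters of the maximal torus of `PSL_2`: Laurent polynomials; the exponent `m` stands for
the weight `m α`, `α` the positive root. -/
abbrev TorusChar := AddMonoidAlgebra ℤ ℤ

/-- The weight `e^{m α}`. -/
noncomputable def wtj (m : ℤ) : TorusChar := AddMonoidAlgebra.single m 1

/-- Multiplicity of the simple `PSL_2`-module `L(2m)` of highest weight `m α` in the class with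
Weyl-invariant character `f`: the coefficient of `e^{m α}` in `f · (1 - e^{-α})`. -/
noncomputable def multj (m : ℤ) (f : TorusChar) : ℤ := (f * (1 - wtj (-1))).coeff m

/-- Formal characters of virtual `GL_d × PSL_2`-modules, completed in the `GL_d` degree. -/
abbrev CharJ (d : ℕ) := MvPowerSeries (Fin d) TorusChar

/-- Integer powers of a series with constant coefficient one. -/
noncomputable def zpw {d : ℕ} (f : CharJ d) (n : ℤ) : CharJ d :=
  if 0 ≤ n then f ^ n.toNat else (MvPowerSeries.invOfUnit f 1) ^ (-n).toNat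

/-- `λ` of a one dimensional module of weight `x^α e^μ`. -/
noncomputable def lamOne {d : ℕ} (α : Fin d →₀ ℕ) (m : ℤ) : CharJ d :=
  1 - MvPowerSeries.monomial α (wtj m)

/-- `λ` of `p · x^α [L(2)] + q · x^α [L(0)]`: the weights `0`, `α`, `-α` of the adjoint module
have multiplicity one. -/
noncomputable def lamTerm {d : ℕ} (α : Fin d →₀ ℕ) (p q : ℤ) : CharJ d :=
  zpw (lamOne α 0) (p + q) * (zpw (lamOne α 1) p * zpw (lamOne α (-1)) p)

/-- The coefficient of `x^β` in `Φ = λ(a [L(2)] + b [L(0)])`. Only the terms `x^α` with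
`0 ≠ α ≤ β` contribute to it. -/
noncomputable def phi {d : ℕ} (a b : MvPowerSeries (Fin d) ℤ) (β : Fin d →₀ ℕ) : TorusChar :=
  MvPowerSeries.coeff β (∏ α ∈ (Finset.Icc 0 β).erase 0,
    lamTerm α (MvPowerSeries.coeff α a) (MvPowerSeries.coeff α b))

/-- `a` is the formal character of an element of the augmentation ideal of the completed
Grothendieck ring of polynomial `GL_d`-representations: a symmetric series without constant
term. -/
def InAug {d : ℕ} (a : MvPowerSeries (Fin d) ℤ) : Prop :=
  MvPowerSeries.coeff 0 a = 0 ∧ ∀ (σ : Equiv.Perm (Fin d)) (α : Fin d →₀ ℕ),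
    MvPowerSeries.coeff (α.mapDomain σ) a = MvPowerSeries.coeff α a

/-- The defining property of the pair `(a(V), b(V))` for `dim V = d`:
`[Φ : [L(0)]] = 1` and `[Φ : [L(2)]] = -[V]`. -/
structure IsKMPair {d : ℕ} (a b : MvPowerSeries (Fin d) ℤ) : Prop where
  aug_a : InAug a
  aug_b : InAug b
  trivial_part : ∀ β, multj 0 (phi a b β) = if β = 0 then 1 else 0
  adjoint_part : ∀ β, multj 1 (phi a b β) = if ∃ i, β = Finsupp.single i 1 then -1 else 0

/-- The formal character of the free Jordan algebra `Jord(V)`, `dim V = d`. -/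
noncomputable def jordChar (k : Type*) [Field k] (d : ℕ) : MvPowerSeries (Fin d) ℤ :=
  fun α => (Module.finrank k (qmcomp (jordRel k d) α) : ℤ)

/-- Integer powers of a power series with constant coefficient one. -/
noncomputable def zpw1 (f : PowerSeries TorusChar) (n : ℤ) : PowerSeries TorusChar :=
  if 0 ≤ n then f ^ n.toNat else (PowerSeries.invOfUnit f 1) ^ (-n).toNat

/-- the graded Euler characteristic for `N = 2` -/
noncomputable def GJ (A B : ℕ → ℤ) (N : ℕ) : PowerSeries TorusChar :=
  ∏ n ∈ Finset.Icc 1 N, (zpw1 (1 - PowerSeries.monomial n (wtj 0)) (A n + B n) *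
    (zpw1 (1 - PowerSeries.monomial n (wtj 1)) (A n) *
      zpw1 (1 - PowerSeries.monomial n (wtj (-1))) (A n)))

end Pool.Agent.Y80.KM
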