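import Pool.Agent.Y80.KM.LieIso

set_option autoImplicit false
set_option linter.unusedSectionVars false

open scoped BigOperators TensorProduct

/-! The matrix models are models of `ABG(A)` and `TAG(J)`. -/

namespace Pool.Agent.Y80.KM

section maps

variable {k A : Type*} [Field k] [CharZero k] [NonUnitalNonAssocRing A] [Module k A]
  [IsScalarTower k A A] [SMulCommClass k A A] {N : ℕ} [NeZero N] (T : TitsData k A N)

/-- `(X, a) ↦ X ⊗ a` as a bilinear map -/
noncomputable def sL : Sl N k →ₗ[k] A →ₗ[k] TLie T :=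
  LinearMap.mk₂ k (tS T)
    (by
      intro X Y a
      apply TLie.ext
      · ext i j
        simp [add_smul]
      · simp)
    (by
      intro c X a
      apply TLie.ext
      · ext i j
        simp [mul_smul]
      · simp)
    (by
      intro X a b
      apply TLie.ext
      · ext i j
        simp
      · simp)
    (by
      intro c X a
      apply TLie.ext
      · ext i j
        simp only [mat_tS, Matrix.of_apply, TLie.mat_smul, Matrix.smul_apply]
        rw [smul_comm]
      · simp)

@[simp] theorem sL_apply (X : Sl N k) (a : A) : sL T X a = tS T X a := rfl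

/-- `b ↦ b` as a linear map -/
noncomputable def wL : BSp k A →ₗ[k] TLie T where
  toFun := tW T
  map_add' a b := by
    apply TLie.ext
    · simp
    · simp
  map_smul' c b := by
    apply TLie.ext
    · simp
    · simp

@[simp] theorem wL_apply (b : BSp k A) : wL T b = tW T b := rfl

variable {T} in
theorem isSum_model (θ : (Sl N k ⊗[k] A) ≃ₗ[k] slA k A N)
    (hθ : ∀ X a, ((θ (X ⊗ₜ a) : slA k A N) : Matrix (Fin N) (Fin N) A) =
      Matrix.of fun i j => X.1 i j • a) : IsSum (sL T) (wL T) := by
  have key : ∀ z : (Sl N k ⊗[k] A) × BSp k A,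
      LinearMap.coprod (TensorProduct.lift (sL T)) (wL T) z =
        ((θ z.1, z.2) : slA k A N × BSp k A) := by
    rintro ⟨t, b⟩
    rw [LinearMap.coprod_apply]
    induction t using TensorProduct.induction_on with
    | zero =>
      rw [map_zero, zero_add, map_zero]
      rfl
    | tmul X a =>
      rw [TensorProduct.lift.tmul, sL_apply, wL_apply]
      apply TLie.ext
      · change Matrix.of (fun i j => X.1 i j • a) + 0 = _
        rw [add_zero]
        exact (hθ X a).symm
      · change 0 + b = b
        rw [zero_add]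
    | add u v hu hv =>
      simp only at hu hv ⊢
      rw [map_add, add_assoc, hv, map_add]
      have hu' : TensorProduct.lift (sL T) u = ((θ u, 0) : slA k A N × BSp k A) := by
        have := sub_eq_of_eq_add hu.symm
        rw [← this]
        change ((θ u, b) : slA k A N × BSp k A) - ((0, b) : slA k A N × BSp k A) = _
        rw [Prod.mk_sub_mk, sub_zero, sub_self]
      rw [hu']
      change ((θ u, 0) : slA k A N × BSp k A) + ((θ v, b) : slA k A N × BSp k A) = _
      rw [Prod.mk_add_mk, zero_add]
  constructor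
  · intro y z h
    rw [key, key] at h
    have h1 := congrArg Prod.fst h
    have h2 := congrArg Prod.snd h
    exact Prod.ext (θ.injective h1) h2
  · intro y
    refine ⟨(θ.symm y.1, y.2), ?_⟩
    rw [key]
    change ((θ (θ.symm y.1), y.2) : slA k A N × BSp k A) = y
    rw [LinearEquiv.apply_symm_apply]
    rfl

theorem isSlAct_model : IsSlAct (sL T) (wL T) (fun X => glAct T X.1) where
  der X x y := Pool.Agent.Y484.KM.glAct_br T X.1 x y
  act_s X Y a := glAct_tS T X Y a
  act_w X b := glAct_tW T X.1 b

theorem brB_model : BrB (fun a b c => T.D a b c) (sL T) (wL T) := by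
  intro p q r
  refine ⟨fun X => tS_mix T p q X r, fun t => ?_⟩
  exact tW_tW T p q r t

end maps

section alt

variable {k A : Type*} [Field k] [CharZero k] [NonUnitalNonAssocRing A] [Module k A]
  [IsScalarTower k A A] [SMulCommClass k A A]

theorem br_abg (h1 : ∀ a b : A, (a * a) * b = a * (a * b))
    (h2 : ∀ a b : A, (b * a) * a = b * (a * a)) (X Y Z : Sl 3 k) (p q : A)
    (hZ : Z.1 = (2 : k)⁻¹ • (X.1 * Y.1 + Y.1 * X.1) - ((3 : k)⁻¹ * (X.1 * Y.1).trace) • 1) :
    ⁅tS (abgData k A h1 h2) X p, tS (abgData k A h1 h2) Y q⁆ =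
      tS (abgData k A h1 h2) ⁅X, Y⁆ ((2 : k)⁻¹ • (p * q + q * p)) +
      tS (abgData k A h1 h2) Z (p * q - q * p) +
      ((3 : k)⁻¹ * (X.1 * Y.1).trace) • tW (abgData k A h1 h2) (wedge k A p q) := by
  rw [lie_eq]
  apply TLie.ext
  · rw [TLie.mat_br, TLie.mat_add, TLie.mat_add, TLie.mat_smul, mat_tS, mat_tS, mat_tS, mat_tS,
      b_tS, b_tS, mat_tW, map_zero, smul_zero, add_zero]
    have hXY : (⁅X, Y⁆ : Sl 3 k).1 = X.1 * Y.1 - Y.1 * X.1 := rfl
    rw [hZ, hXY, cbr, mul_tens, mul_tens]
    have htr : ((Matrix.of fun i j => (X.1 * Y.1) i j • (p * q)) -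
        (Matrix.of fun i j => (Y.1 * X.1) i j • (q * p))).trace =
        (X.1 * Y.1).trace • (p * q - q * p) := by
      rw [Matrix.trace_sub, smul_sub]
      congr 1
      · rw [Matrix.trace, Matrix.trace, Finset.sum_smul]
        rfl
      · rw [Matrix.trace_mul_comm X.1 Y.1, Matrix.trace, Matrix.trace, Finset.sum_smul]
        rfl
    rw [htr]
    ext i j
    simp only [Matrix.sub_apply, Matrix.add_apply, Matrix.of_apply, Matrix.map_apply,
      LinearMap.zero_apply, Matrix.smul_apply, Matrix.one_apply, Matrix.diagonal_apply,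
      smul_eq_mul, add_zero, sub_zero, Nat.cast_ofNat]
    generalize (X.1 * Y.1) i j = a
    generalize (Y.1 * X.1) i j = b
    generalize (X.1 * Y.1).trace = t
    generalize p * q = P
    generalize q * p = Q
    split_ifs
    · module
    · module
  · rw [TLie.b_br, TLie.b_add, TLie.b_add, TLie.b_smul, b_tS, b_tS, b_tS, b_tS, b_tW, map_zero,
      mat_tS, mat_tS, tw_tens, add_zero, zero_add, zero_add, smul_smul]
    rfl

end alt

section jord

variable {k A : Type*} [Field k] [CharZero k] [NonUnitalNonAssocRing A] [Module k A]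
  [IsScalarTower k A A] [SMulCommClass k A A]

theorem br_tag (hc : ∀ a b : A, a * b = b * a)
    (hj : ∀ a b : A, ((a * a) * b) * a = (a * a) * (b * a)) (X Y : Sl 2 k) (p q : A) :
    ⁅tS (tagData k A hc hj) X p, tS (tagData k A hc hj) Y q⁆ =
      tS (tagData k A hc hj) ⁅X, Y⁆ (p * q) +
      (2 * (X.1 * Y.1).trace) • tW (tagData k A hc hj) (wedge k A p q) := by
  rw [lie_eq]
  apply TLie.ext
  · rw [TLie.mat_br, TLie.mat_add, TLie.mat_smul, mat_tS, mat_tS, mat_tS,
      b_tS, b_tS, mat_tW, map_zero, smul_zero, add_zero]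
    have hXY : (⁅X, Y⁆ : Sl 2 k).1 = X.1 * Y.1 - Y.1 * X.1 := rfl
    rw [hXY, cbr, mul_tens, mul_tens]
    have htr : ((Matrix.of fun i j => (X.1 * Y.1) i j • (p * q)) -
        (Matrix.of fun i j => (Y.1 * X.1) i j • (q * p))).trace = 0 := by
      rw [Matrix.trace_sub, sub_eq_zero, hc q p]
      have e1 : ∀ (M : Matrix (Fin 2) (Fin 2) k) (a : A),
          (Matrix.of fun i j => M i j • a).trace = M.trace • a := by
        intro M a
        rw [Matrix.trace, Matrix.trace, Finset.sum_smul]
        rfl
      rw [e1, e1, Matrix.trace_mul_comm]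
    rw [htr, smul_zero]
    ext i j
    simp only [Matrix.sub_apply, Matrix.add_apply, Matrix.of_apply, Matrix.map_apply,
      LinearMap.zero_apply, Matrix.diagonal_apply, add_zero, sub_zero, ite_self, sub_smul, hc q p]
  · rw [TLie.b_br, TLie.b_add, TLie.b_smul, b_tS, b_tS, b_tS, b_tW, map_zero,
      mat_tS, mat_tS, tw_tens, add_zero, zero_add, smul_smul]
    rfl

end jord

end Pool.Agent.Y80.KM
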