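import Pool.Agent.Y80.KM.Trans
import Pool.Agent.Y80.KM.LieIso2
import Pool.Agent.Y815.KM.HFun
import Pool.Agent.Y394.KM.Tens
import Pool.Agent.Y681.KM.Univ

set_option autoImplicit false
set_option linter.unusedSectionVars false

open scoped BigOperators TensorProduct

/-! The main theorems for abstract models. -/

namespace Pool.Agent.Y80.KM

universe u

section gen

variable {k A : Type u} [Field k] [CharZero k] [NonUnitalNonAssocRing A] [Module k A]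
  [IsScalarTower k A A] [SMulCommClass k A A] {N : ℕ} [NeZero N] {T : TitsData k A N}
  {𝒜 : ℕ → Submodule k A}

/-- from the concrete data to `HasComp` -/
theorem hasComp_of (h : GrData T 𝒜) (p : ℕ) (hp : ¬ (tData h).NoComp p) :
    HasComp (fun X : Sl N k => glAct T X.1)
      (fun X => Pool.Agent.Y484.KM.glAct_br T X.1) p := by
  by_contra hcon
  rw [HasComp, not_or] at hcon
  apply hp
  refine ⟨fun m hm => ?_, fun f hf hf2 => hcon.2 ⟨f, hf, hf2⟩⟩
  by_contra hne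
  exact hcon.1 ⟨m, hne, fun X => hm X.1 X.2⟩

theorem exists_theta' (k A : Type*) [Field k] [NonUnitalNonAssocRing A] [Module k A] (N : ℕ)
    [NeZero N] : ∃ θ : (Sl N k ⊗[k] A) ≃ₗ[k] slA k A N, ∀ X a,
      ((θ (X ⊗ₜ a) : slA k A N) : Matrix (Fin N) (Fin N) A) = Matrix.of fun i j => X.1 i j • a := by
  obtain ⟨θ, hθ⟩ := Pool.Agent.Y394.KM.exists_theta k A N
  exact ⟨θ, fun X a => by rw [hθ]; rfl⟩

end gen

section alt

variable {k A : Type u} [Field k] [CharZero k] [NonUnitalNonAssocRing A] [Module k A]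
  [IsScalarTower k A A] [SMulCommClass k A A]

theorem exists_abg (hA : IsAlt A) : ∃ (L : Type u) (_ : LieRing L) (_ : LieAlgebra k L)
    (s : Sl 3 k →ₗ[k] A →ₗ[k] L) (w : BSp k A →ₗ[k] L) (E : Sl 3 k → L →ₗ[k] L),
    IsABG s w ∧ IsSlAct s w E := by
  have h1 : ∀ a b : A, (a * a) * b = a * (a * b) := fun a b => (hA a b).1
  have h2 : ∀ a b : A, (b * a) * a = b * (a * a) := fun a b => (hA a b).2
  obtain ⟨θ, hθ⟩ := exists_theta' k A 3
  refine ⟨TLie (abgData k A h1 h2), inferInstance, inferInstance, sL _, wL _,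
    fun X => glAct _ X.1, ⟨isSum_model θ hθ, ?_, brB_model _⟩, isSlAct_model _⟩
  intro X Y Z p q hZ
  exact br_abg h1 h2 X Y Z p q hZ

theorem alt_final {x : Fin 3 → A} (hx : IsFreeAlt k x) {L : Type u} [LieRing L] [LieAlgebra k L]
    {s : Sl 3 k →ₗ[k] A →ₗ[k] L} {w : BSp k A →ₗ[k] L} {E : Sl 3 k → L →ₗ[k] L}
    (hL : IsABG s w) (hE : IsSlAct s w E) : ∃ p, 2 ≤ p ∧ p ≤ 10 ∧ HasComp E hE.der p := by
  have h1 : ∀ a b : A, (a * a) * b = a * (a * b) := fun a b => (hx.1 a b).1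
  have h2 : ∀ a b : A, (b * a) * a = b * (a * a) := fun a b => (hx.1 a b).2
  obtain ⟨φ, hφ⟩ := Pool.Agent.Y681.KM.alt_equiv hx
  obtain ⟨p, hp1, hp2, hp⟩ := alt_comp' φ hφ h1 h2
  refine ⟨p, hp1, hp2, ?_⟩
  have hc := hasComp_of _ p hp
  obtain ⟨θ, hθ⟩ := exists_theta' k A 3
  obtain ⟨Ψ, hS, hW⟩ := exists_psi (T := abgData k A h1 h2) θ hθ s w hL.1
  have hΨ := lie_iso θ hθ s w Ψ hS hW (by
    intro X Y p q
    have hZ : ((2 : k)⁻¹ • (X.1 * Y.1 + Y.1 * X.1) -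
        ((3 : k)⁻¹ * (X.1 * Y.1).trace) • (1 : Matrix (Fin 3) (Fin 3) k)).trace = 0 := by
      rw [Matrix.trace_sub, Matrix.trace_smul, Matrix.trace_add, Matrix.trace_smul,
        Matrix.trace_one, Matrix.trace_mul_comm Y.1 X.1, Fintype.card_fin, smul_eq_mul,
        smul_eq_mul, ← two_mul, inv_mul_cancel_left₀ two_ne_zero]
      push_cast
      rw [mul_right_comm, inv_mul_cancel₀ three_ne_zero, one_mul, sub_self]
    rw [br_abg h1 h2 X Y ⟨_, hZ⟩ p q rfl, hL.2.1 X Y ⟨_, hZ⟩ p q rfl]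
    rw [map_add, map_add, map_smul, hS, hS, hW]) hL.2.2
  exact Pool.Agent.Y815.KM.HFun.hasComp_transfer Ψ hΨ E hE.der _ _
    (fun X x => act_psi θ hθ s w Ψ hS hW E hE X x) p hc

end alt

section jord

variable {k A : Type u} [Field k] [CharZero k] [NonUnitalNonAssocRing A] [Module k A]
  [IsScalarTower k A A] [SMulCommClass k A A]

theorem exists_tag (hA : IsJord A) : ∃ (L : Type u) (_ : LieRing L) (_ : LieAlgebra k L)
    (s : Sl 2 k →ₗ[k] A →ₗ[k] L) (w : BSp k A →ₗ[k] L) (E : Sl 2 k → L →ₗ[k] L),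
    IsTAG s w ∧ IsSlAct s w E := by
  have h1 : ∀ a b : A, a * b = b * a := fun a b => (hA a b).1
  have h2 : ∀ a b : A, ((a * a) * b) * a = (a * a) * (b * a) := fun a b => (hA a b).2
  obtain ⟨θ, hθ⟩ := exists_theta' k A 2
  refine ⟨TLie (tagData k A h1 h2), inferInstance, inferInstance, sL _, wL _,
    fun X => glAct _ X.1, ⟨isSum_model θ hθ, ?_, brB_model _⟩, isSlAct_model _⟩
  intro X Y p q
  exact br_tag h1 h2 X Y p q

theorem jord_final {x : Fin 3 → A} (hx : IsFreeJord k x) {L : Type u} [LieRing L]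
    [LieAlgebra k L] {s : Sl 2 k →ₗ[k] A →ₗ[k] L} {w : BSp k A →ₗ[k] L}
    {E : Sl 2 k → L →ₗ[k] L} (hL : IsTAG s w) (hE : IsSlAct s w E) :
    ∃ p, 2 ≤ p ∧ p ≤ 18 ∧ HasComp E hE.der p := by
  have h1 : ∀ a b : A, a * b = b * a := fun a b => (hx.1 a b).1
  have h2 : ∀ a b : A, ((a * a) * b) * a = (a * a) * (b * a) := fun a b => (hx.1 a b).2
  obtain ⟨φ, hφ⟩ := Pool.Agent.Y681.KM.jord_equiv hx
  obtain ⟨p, hp1, hp2, hp⟩ := jord_comp' φ hφ h1 h2
  refine ⟨p, hp1, hp2, ?_⟩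
  have hc := hasComp_of _ p hp
  obtain ⟨θ, hθ⟩ := exists_theta' k A 2
  obtain ⟨Ψ, hS, hW⟩ := exists_psi (T := tagData k A h1 h2) θ hθ s w hL.1
  have hΨ := lie_iso θ hθ s w Ψ hS hW (by
    intro X Y p q
    rw [br_tag h1 h2 X Y p q, hL.2.1 X Y p q]
    rw [map_add, map_smul, hS, hW]) hL.2.2
  exact Pool.Agent.Y815.KM.HFun.hasComp_transfer Ψ hΨ E hE.der _ _
    (fun X x => act_psi θ hθ s w Ψ hS hW E hE X x) p hc

end jord

end Pool.Agent.Y80.KM
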