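import Pool.Agent.Y80.KM.Main2
import Pool.Agent.Y960.KM.FreeJob
import Pool.Agent.Y960.KM.AltDimJob
import Pool.Agent.Y417.KM.CohnDim

set_option autoImplicit false
set_option linter.unusedSectionVars false

open scoped BigOperators

/-! The Tits type Lie algebras of free alternative and free Jordan algebras. -/

namespace Pool.Agent.Y80.KM

universe u

section lin

variable {k : Type*} [Field k] {d : ℕ}

/-- the coefficient of a generator -/
noncomputable def linc (i : Fin d) : NF k d →ₗ[k] k where
  toFun x := MonoidAlgebra.coeff (x : MonoidAlgebra k (FreeMagma (Fin d))) (FreeMagma.of i)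
  map_add' _ _ := rfl
  map_smul' _ _ := rfl

theorem linc_mul (i : Fin d) (a b : NF k d) : linc i (a * b) = 0 := by
  induction a using MonoidAlgebra.induction_linear with
  | zero => rw [zero_mul, map_zero]
  | add x y hx hy => rw [add_mul, map_add, hx, hy, add_zero]
  | single w r =>
    induction b using MonoidAlgebra.induction_linear with
    | zero => rw [mul_zero, map_zero]
    | add x y hx hy => rw [mul_add, map_add, hx, hy, add_zero]
    | single w' r' =>
      rw [MonoidAlgebra.single_mul_single]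
      change MonoidAlgebra.coeff (MonoidAlgebra.single (w * w') (r * r')) (FreeMagma.of i) = 0
      rw [MonoidAlgebra.coeff_single, Finsupp.single_apply, if_neg]
      intro h
      change FreeMagma.mul w w' = FreeMagma.of i at h
      cases h

theorem altRel_map (φ : NF k d →ₙₐ[k] NF k d) (r : NF k d) (hr : r ∈ altRel k d) :
    φ r ∈ altRel k d := by
  obtain ⟨a, b, rfl | rfl⟩ := hr
  · refine ⟨φ a, φ b, Or.inl ?_⟩
    simp only [map_sub, map_mul]
  · refine ⟨φ a, φ b, Or.inr ?_⟩
    simp only [map_sub, map_mul]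

theorem jordRel_map (φ : NF k d →ₙₐ[k] NF k d) (r : NF k d) (hr : r ∈ jordRel k d) :
    φ r ∈ jordRel k d := by
  obtain ⟨a, b, rfl | rfl⟩ := hr
  · refine ⟨φ a, φ b, Or.inl ?_⟩
    simp only [map_sub, map_mul]
  · refine ⟨φ a, φ b, Or.inr ?_⟩
    simp only [map_sub, map_mul]

theorem altRel_lin (r : NF k d) (hr : r ∈ altRel k d) (i : Fin d) :
    MonoidAlgebra.coeff (r : MonoidAlgebra k (FreeMagma (Fin d))) (FreeMagma.of i) = 0 := by
  change linc i r = 0
  obtain ⟨a, b, rfl | rfl⟩ := hr <;> rw [map_sub, linc_mul, linc_mul, sub_zero]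

theorem jordRel_lin (r : NF k d) (hr : r ∈ jordRel k d) (i : Fin d) :
    MonoidAlgebra.coeff (r : MonoidAlgebra k (FreeMagma (Fin d))) (FreeMagma.of i) = 0 := by
  change linc i r = 0
  obtain ⟨a, b, rfl | rfl⟩ := hr <;> rw [map_sub, linc_mul, linc_mul, sub_zero]

end lin

section conc

variable (k : Type u) [Field k] [CharZero k] (d : ℕ)

/-- The Allison-Benkart-Gao Lie algebra of the free alternative algebra on `d` generators. -/
abbrev ABG : Type u := TLie (abgData k (FreeAlt k d) alt_left alt_right)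

/-- The Tits-Allison-Gao Lie algebra of the free Jordan algebra on `d` generators. -/
abbrev TAG : Type u := TLie (tagData k (FreeJord k d) jord_comm jord_id)

theorem alt_gr : GrData (abgData k (FreeAlt k d) alt_left alt_right) (qcomp (altRel k d)) where
  int := Pool.Agent.Y960.KM.qcomp_internal _ altRel_map
  mul _ _ _ hx _ hy := Pool.Agent.Y960.KM.qcomp_mul _ hx hy
  D m n l x hx y hy z hz := by
    change dop x y z ∈ _
    have t : ∀ {m n : ℕ} {x y : QAlg (altRel k d)}, x ∈ qcomp (altRel k d) m →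
        y ∈ qcomp (altRel k d) n → x * y ∈ qcomp (altRel k d) (m + n) :=
      fun hx hy => Pool.Agent.Y960.KM.qcomp_mul _ hx hy
    have e1 := t hx (t hy hz)
    have e2 := t hy (t hx hz)
    have e3 := t (t hz hy) hx
    have e4 := t (t hz hx) hy
    have e5 := t hx (t hz hy)
    have e6 := t (t hx hz) hy
    rw [show m + (n + l) = m + n + l by ring] at e1
    rw [show n + (m + l) = m + n + l by ring] at e2
    rw [show l + n + m = m + n + l by ring] at e3
    rw [show l + m + n = m + n + l by ring] at e4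
    rw [show m + (l + n) = m + n + l by ring] at e5
    rw [show m + l + n = m + n + l by ring] at e6
    exact add_mem (add_mem (sub_mem e1 e2) (sub_mem e3 e4)) (sub_mem e5 e6)
  fin := Pool.Agent.Y960.KM.qcomp_finite _
  zero := Pool.Agent.Y960.KM.qcomp_zero _

theorem jord_gr : GrData (tagData k (FreeJord k d) jord_comm jord_id) (qcomp (jordRel k d)) where
  int := Pool.Agent.Y960.KM.qcomp_internal _ jordRel_map
  mul _ _ _ hx _ hy := Pool.Agent.Y960.KM.qcomp_mul _ hx hy
  D m n l x hx y hy z hz := by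
    change jdop x y z ∈ _
    have t : ∀ {m n : ℕ} {x y : QAlg (jordRel k d)}, x ∈ qcomp (jordRel k d) m →
        y ∈ qcomp (jordRel k d) n → x * y ∈ qcomp (jordRel k d) (m + n) :=
      fun hx hy => Pool.Agent.Y960.KM.qcomp_mul _ hx hy
    have e1 := t hx (t hy hz)
    have e2 := t hy (t hx hz)
    rw [show m + (n + l) = m + n + l by ring] at e1
    rw [show n + (m + l) = m + n + l by ring] at e2
    exact sub_mem e1 e2
  fin := Pool.Agent.Y960.KM.qcomp_finite _
  zero := Pool.Agent.Y960.KM.qcomp_zero _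

theorem repN3 : RepN k 3 := by
  intro M _ _ _ ρ hρ h1 htop hinv
  exact Pool.Agent.Y556.KM.rep3 ρ hρ h1 htop hinv

theorem repN2 : RepN k 2 := by
  intro M _ _ _ ρ hρ h1 htop hinv
  exact Pool.Agent.Y76.KM.rep2 ρ hρ h1 htop hinv

theorem alt_comp : ∃ p, 2 ≤ p ∧ p ≤ 10 ∧ ¬ (tData (alt_gr k 3)).NoComp p := by
  by_contra hcon
  push Not at hcon
  have h1 := main3 (alt_gr k 3) (inv_ne_zero three_ne_zero) (repN3 k)
    (fun n hn => Pool.Agent.Y960.KM.qcomp_gen _ hn)
    (Pool.Agent.Y960.KM.qcomp_one _ altRel_lin) hcon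
  have h2 := Pool.Agent.Y960.KM.alt_dim k 3 10 (by norm_num)
  rw [h1] at h2
  norm_num at h2

theorem jord_comp : ∃ p, 2 ≤ p ∧ p ≤ 18 ∧ ¬ (tData (jord_gr k 3)).NoComp p := by
  by_contra hcon
  push Not at hcon
  have h1 := main2 (jord_gr k 3) two_ne_zero jord_comm (repN2 k)
    (fun n hn => Pool.Agent.Y960.KM.qcomp_gen _ hn)
    (Pool.Agent.Y960.KM.qcomp_one _ jordRel_lin) hcon
  have h2 := Pool.Agent.Y417.KM.cohn_total k 18 (by norm_num)
  rw [h1] at h2
  norm_num at h2

end conc

end Pool.Agent.Y80.KM
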