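import Pool.Agent.Y80.KM.Defs2

set_option autoImplicit false

open scoped BigOperators

/-! The operators `theta D` and `ced` respect the multigrading of the exterior algebra. -/

namespace Pool.Agent.Y80.KM

open ExteriorAlgebra

section one

variable {k L I Γ : Type*} [Field k] [AddCommGroup L] [Module k L] [AddCommMonoid Γ]
  (b : Module.Basis I k L) (γ : I → Γ)

/-- the span of the basis vectors of degree `g` -/
def hsp (g : Γ) : Submodule k L := Submodule.span k (b '' {l | γ l = g})

theorem prod_mem_eg (l : List I) :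
    (l.map fun i => ι k (b i)).prod ∈ eg b γ l.length (l.map γ).sum :=
  Submodule.subset_span ⟨l, rfl, rfl, rfl⟩

theorem mul_mem_eg {h g : Γ} {p : ℕ} {y : L} (hy : y ∈ hsp b γ h) {w : ExteriorAlgebra k L}
    (hw : w ∈ eg b γ p g) : ι k y * w ∈ eg b γ (p + 1) (h + g) := by
  induction hy using Submodule.span_induction with
  | mem y hy =>
    obtain ⟨i, hi, rfl⟩ := hy
    induction hw using Submodule.span_induction with
    | mem w hw =>
      obtain ⟨l, hl1, hl2, rfl⟩ := hw
      refine Submodule.subset_span ⟨i :: l, by simp [hl1], ?_, by simp⟩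
      rw [List.map_cons, List.sum_cons, hl2]
      congr 1
    | zero => rw [mul_zero]; exact zero_mem _
    | add u v _ _ hu hv => rw [mul_add]; exact add_mem hu hv
    | smul c u _ hu => rw [mul_smul_comm]; exact Submodule.smul_mem _ c hu
  | zero => rw [map_zero, zero_mul]; exact zero_mem _
  | add u v _ _ hu hv => rw [map_add, add_mul]; exact add_mem hu hv
  | smul c u _ hu => rw [map_smul, smul_mul_assoc]; exact Submodule.smul_mem _ c hu

theorem basis_mem_hsp (i : I) : b i ∈ hsp b γ (γ i) :=
  Submodule.subset_span ⟨i, rfl, rfl⟩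

theorem one_mem_eg : (1 : ExteriorAlgebra k L) ∈ eg b γ 0 0 := by
  have := prod_mem_eg b γ ([] : List I)
  simpa using this

theorem theta_list (D : L →ₗ[k] L) (s : Γ) (hD : ∀ i, D (b i) ∈ hsp b γ (γ i + s)) (l : List I) :
    theta D (l.map fun i => ι k (b i)).prod ∈ eg b γ l.length ((l.map γ).sum + s) := by
  induction l with
  | nil => simp
  | cons i l ih =>
    simp only [List.map_cons, List.prod_cons, List.length_cons, List.sum_cons]
    rw [theta_ι_mul]
    apply add_mem
    · have := mul_mem_eg b γ (hD i) (prod_mem_eg b γ l)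
      have e : γ i + s + (l.map γ).sum = γ i + (l.map γ).sum + s := by
        rw [add_assoc, add_comm s, ← add_assoc]
      rwa [e] at this
    · have := mul_mem_eg b γ (basis_mem_hsp b γ i) ih
      rwa [← add_assoc] at this

theorem theta_mem_eg (D : L →ₗ[k] L) (s : Γ) (hD : ∀ i, D (b i) ∈ hsp b γ (γ i + s)) {p : ℕ}
    {g : Γ} {w : ExteriorAlgebra k L} (hw : w ∈ eg b γ p g) : theta D w ∈ eg b γ p (g + s) := by
  induction hw using Submodule.span_induction with
  | mem w hw =>
    obtain ⟨l, rfl, rfl, rfl⟩ := hw
    exact theta_list b γ D s hD l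
  | zero => rw [map_zero]; exact zero_mem _
  | add u v _ _ hu hv => rw [map_add]; exact add_mem hu hv
  | smul c u _ hu => rw [map_smul]; exact Submodule.smul_mem _ c hu

/-- a diagonal operator acts on the piece of degree `g` by the scalar `χ g` -/
theorem theta_diag (D : L →ₗ[k] L) (χ : Γ →+ k) (hD : ∀ i, D (b i) = χ (γ i) • b i) {p : ℕ} {g : Γ}
    {w : ExteriorAlgebra k L} (hw : w ∈ eg b γ p g) : theta D w = χ g • w := by
  induction hw using Submodule.span_induction with
  | mem w hw =>
    obtain ⟨l, rfl, rfl, rfl⟩ := hw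
    induction l with
    | nil => simp
    | cons i l ih =>
      simp only [List.map_cons, List.prod_cons, List.sum_cons]
      rw [theta_ι_mul, ih, hD, map_smul, smul_mul_assoc, mul_smul_comm, ← add_smul, map_add]
  | zero => rw [map_zero, smul_zero]
  | add u v _ _ hu hv => rw [map_add, hu, hv, smul_add]
  | smul c u _ hu => rw [map_smul, hu, smul_comm]

end one

section two

variable {k L I Γ : Type*} [Field k] [LieRing L] [LieAlgebra k L] [AddCommMonoid Γ]
  (b : Module.Basis I k L) (γ : I → Γ)

theorem ced_list (hbr : ∀ i j, ⁅b i, b j⁆ ∈ hsp b γ (γ i + γ j)) (l : List I) (p : ℕ)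
    (hp : l.length = p + 1) :
    ced k L (l.map fun i => ι k (b i)).prod ∈ eg b γ p (l.map γ).sum := by
  induction l generalizing p with
  | nil => simp at hp
  | cons i l ih =>
    simp only [List.map_cons, List.prod_cons, List.sum_cons]
    rw [ced_ι_mul]
    have hl : l.length = p := by simpa using hp
    apply sub_mem
    · have := theta_list b γ (adL k L (b i)) (γ i) (by
        intro j
        have := hbr i j
        rw [add_comm] at this
        exact this) l
      rw [hl, add_comm] at this
      exact this
    · cases l with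
      | nil => simp
      | cons j l =>
        obtain ⟨q, rfl⟩ : ∃ q, p = q + 1 := ⟨l.length, by simpa using hl.symm⟩
        exact mul_mem_eg b γ (basis_mem_hsp b γ i) (ih q hl)

theorem ced_mem_eg (hbr : ∀ i j, ⁅b i, b j⁆ ∈ hsp b γ (γ i + γ j)) {p : ℕ} {g : Γ}
    {w : ExteriorAlgebra k L} (hw : w ∈ eg b γ (p + 1) g) : ced k L w ∈ eg b γ p g := by
  induction hw using Submodule.span_induction with
  | mem w hw =>
    obtain ⟨l, hl, rfl, rfl⟩ := hw
    exact ced_list b γ hbr l p hl
  | zero => rw [map_zero]; exact zero_mem _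
  | add u v _ _ hu hv => rw [map_add]; exact add_mem hu hv
  | smul c u _ hu => rw [map_smul]; exact Submodule.smul_mem _ c hu

theorem ced_eg_zero {g : Γ} {w : ExteriorAlgebra k L} (hw : w ∈ eg b γ 0 g) : ced k L w = 0 := by
  induction hw using Submodule.span_induction with
  | mem w hw =>
    obtain ⟨l, hl, rfl, rfl⟩ := hw
    rw [List.length_eq_zero_iff] at hl
    subst hl
    simp
  | zero => rw [map_zero]
  | add u v _ _ hu hv => rw [map_add, hu, hv, add_zero]
  | smul c u _ hu => rw [map_smul, hu, smul_zero]

theorem ced_eg_one {g : Γ} {w : ExteriorAlgebra k L} (hw : w ∈ eg b γ 1 g) : ced k L w = 0 := by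
  induction hw using Submodule.span_induction with
  | mem w hw =>
    obtain ⟨l, hl, rfl, rfl⟩ := hw
    rw [List.length_eq_one_iff] at hl
    obtain ⟨i, rfl⟩ := hl
    simp
  | zero => rw [map_zero]
  | add u v _ _ hu hv => rw [map_add, hu, hv, add_zero]
  | smul c u _ hu => rw [map_smul, hu, smul_zero]

end two

end Pool.Agent.Y80.KM
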