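import Pool.Agent.Y80.KM.CE

set_option autoImplicit false

/-! Lie algebra homology with trivial coefficients, and the action of derivations on it. -/

namespace Pool.Agent.Y80.KM

open ExteriorAlgebra

section ext

variable {k L : Type*} [CommRing k] [AddCommGroup L] [Module k L]

theorem power_zero : (⋀[k]^0 L : Submodule k (ExteriorAlgebra k L)) = 1 := pow_zero _

theorem power_one : (⋀[k]^1 L : Submodule k (ExteriorAlgebra k L)) = LinearMap.range (ι k) :=
  pow_one _

theorem power_succ (p : ℕ) : (⋀[k]^(p + 1) L : Submodule k (ExteriorAlgebra k L)) =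
    LinearMap.range (ι k) * ⋀[k]^p L := pow_succ' _ _

theorem theta_mem_power (D : L →ₗ[k] L) (p : ℕ) {w : ExteriorAlgebra k L}
    (hw : w ∈ ⋀[k]^p L) : theta D w ∈ ⋀[k]^p L := by
  induction p generalizing w with
  | zero =>
    rw [power_zero, Submodule.one_eq_span, Submodule.mem_span_singleton] at hw
    obtain ⟨c, rfl⟩ := hw
    rw [map_smul, theta_one, smul_zero]
    exact zero_mem _
  | succ p ih =>
    rw [power_succ] at hw ⊢
    induction hw using Submodule.mul_induction_on' with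
    | mem_mul_mem x hx y hy =>
      obtain ⟨x, rfl⟩ := hx
      rw [theta_ι_mul]
      exact add_mem (Submodule.mul_mem_mul ⟨_, rfl⟩ hy) (Submodule.mul_mem_mul ⟨_, rfl⟩ (ih hy))
    | add x _ y _ hx hy => rw [map_add]; exact add_mem hx hy

end ext

section hom

variable (k L : Type*) [CommRing k] [LieRing L] [LieAlgebra k L]

variable {L} in
theorem ced_mem_power (p : ℕ) {w : ExteriorAlgebra k L}
    (hw : w ∈ ⋀[k]^(p + 1) L) : ced k L w ∈ ⋀[k]^p L := by
  induction p generalizing w with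
  | zero =>
    rw [zero_add, power_one] at hw
    obtain ⟨x, rfl⟩ := hw
    rw [ced_ι]
    exact zero_mem _
  | succ p ih =>
    rw [power_succ] at hw
    induction hw using Submodule.mul_induction_on' with
    | mem_mul_mem x hx y hy =>
      obtain ⟨x, rfl⟩ := hx
      rw [ced_ι_mul]
      refine sub_mem (theta_mem_power _ _ hy) ?_
      rw [power_succ]
      exact Submodule.mul_mem_mul ⟨_, rfl⟩ (ih hy)
    | add x _ y _ hx hy => rw [map_add]; exact add_mem hx hy

/-- the cycles of degree `p` of the Chevalley-Eilenberg complex -/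
noncomputable def cyc (p : ℕ) : Submodule k (ExteriorAlgebra k L) :=
  ⋀[k]^p L ⊓ LinearMap.ker (ced k L)

/-- the boundaries of degree `p` of the Chevalley-Eilenberg complex -/
noncomputable def bdy (p : ℕ) : Submodule k (ExteriorAlgebra k L) :=
  (⋀[k]^(p + 1) L).map (ced k L)

theorem bdy_le_cyc (p : ℕ) : bdy k L p ≤ cyc k L p := by
  rintro _ ⟨w, hw, rfl⟩
  exact ⟨ced_mem_power k p hw, ced_ced k w⟩

/-- The Lie algebra homology `H_p(L, k)` with trivial coefficients. -/
abbrev LieHomology (p : ℕ) : Type _ := ↥(cyc k L p) ⧸ (bdy k L p).submoduleOf (cyc k L p)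

variable {k L}

theorem theta_cyc (D : L →ₗ[k] L) (hD : ∀ x y, D ⁅x, y⁆ = ⁅D x, y⁆ + ⁅x, D y⁆) (p : ℕ)
    {w : ExteriorAlgebra k L} (hw : w ∈ cyc k L p) : theta D w ∈ cyc k L p := by
  refine ⟨theta_mem_power D p hw.1, ?_⟩
  have h := LinearMap.congr_fun (ced_theta k D hD) w
  rw [LinearMap.comp_apply, LinearMap.comp_apply] at h
  have hw2 : ced k L w = 0 := hw.2
  show ced k L (theta D w) = 0
  rw [h, hw2, map_zero]

theorem theta_bdy (D : L →ₗ[k] L) (hD : ∀ x y, D ⁅x, y⁆ = ⁅D x, y⁆ + ⁅x, D y⁆) (p : ℕ)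
    {w : ExteriorAlgebra k L} (hw : w ∈ bdy k L p) : theta D w ∈ bdy k L p := by
  obtain ⟨v, hv, rfl⟩ := hw
  refine ⟨theta D v, theta_mem_power D _ hv, ?_⟩
  have h := LinearMap.congr_fun (ced_theta k D hD) v
  rw [LinearMap.comp_apply, LinearMap.comp_apply] at h
  exact h

/-- The endomorphism of `H_p(L, k)` induced by a derivation `D` of `L`. -/
noncomputable def hact (D : L →ₗ[k] L) (hD : ∀ x y, D ⁅x, y⁆ = ⁅D x, y⁆ + ⁅x, D y⁆) (p : ℕ) :
    LieHomology k L p →ₗ[k] LieHomology k L p :=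
  Submodule.mapQ _ _ ((theta D).restrict fun _ hw => theta_cyc D hD p hw) (by
    rintro ⟨w, hw⟩ h
    exact theta_bdy D hD p h)

end hom

end Pool.Agent.Y80.KM
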