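import Pool.Agent.Y80.KM.HDefs
import Pool.Agent.Y80.KM.EgMem

set_option autoImplicit false

open scoped BigOperators

/-! Multigraded Lie algebras with an action of `gl_N`: the data used in the Euler characteristic
argument. -/

namespace Pool.Agent.Y80.KM

universe u

/-- the statement of the multiplicity formula for `gl_N`, in one universe -/
def RepN (k : Type u) [Field k] (N : ℕ) : Prop :=
  ∀ (M : Type u) [AddCommGroup M] [Module k M] [FiniteDimensional k M]
    (ρ : Matrix (Fin N) (Fin N) k →ₗ[k] Module.End k M),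
    (∀ X Y, ρ (X * Y - Y * X) = ρ X * ρ Y - ρ Y * ρ X) → ρ 1 = 0 →
    (⨆ μ : Fin N → ℤ, wsp ρ μ = ⊤) → (∀ m : M, (∀ X, ρ X m = 0) → m = 0) →
    e0 N (fun μ => (Module.finrank k (wsp ρ μ) : ℤ)) = 0

/-- A Lie algebra with a basis of homogeneous weight vectors and an action of `gl_N` by
derivations. -/
structure HData (k L : Type u) [Field k] [LieRing L] [LieAlgebra k L] (N : ℕ) (I : Type u) where
  b : Module.Basis I k L
  /-- degree and weight of the basis vectors -/
  γ : I → ℕ × (Fin N → ℤ)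
  hbr : ∀ i j, ⁅b i, b j⁆ ∈ hsp b γ (γ i + γ j)
  hpos : ∀ i, 1 ≤ (γ i).1
  hfin : ∀ n, {i | (γ i).1 = n}.Finite
  act : Matrix (Fin N) (Fin N) k →ₗ[k] (L →ₗ[k] L)
  hder : ∀ X x y, act X ⁅x, y⁆ = ⁅act X x, y⁆ + ⁅x, act X y⁆
  hlie : ∀ X Y, act (X * Y - Y * X) = act X ∘ₗ act Y - act Y ∘ₗ act X
  hone : act 1 = 0
  hsh : ∀ s i j, act (Matrix.single i j 1) (b s) ∈ hsp b γ (γ s + (0, epsd i j))
  hwt : ∀ s j, act (Matrix.single j j 1) (b s) = (((γ s).2 j : ℤ) : k) • b s

variable {k L : Type u} [Field k] [LieRing L] [LieAlgebra k L] {N : ℕ} {I : Type u}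

/-- the multiplicity of degree `n` and weight `μ` in `H_p(L)` -/
noncomputable def HData.hm (H : HData k L N I) (p n : ℕ) (μ : Fin N → ℤ) : ℤ :=
  (Module.finrank k ↥(eg H.b H.γ p (n, μ) ⊓ LinearMap.ker (ced k L)) : ℤ) -
    Module.finrank k ↥((eg H.b H.γ (p + 1) (n, μ)).map (ced k L))

/-- the Euler characteristic of degree `n` and weight `μ` -/
noncomputable def HData.chi (H : HData k L N I) (n : ℕ) (μ : Fin N → ℤ) : ℤ :=
  ∑ p ∈ Finset.range (n + 1), (-1) ^ p *
    ({S : Finset I | S.card = p ∧ ∑ i ∈ S, H.γ i = (n, μ)}.ncard : ℤ)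

/-- `H_p(L)` has no trivial and no adjoint component for the action of `sl_N`. -/
def HData.NoComp (H : HData k L N I) (p : ℕ) : Prop :=
  (∀ m : LieHomology k L p, (∀ X, X.trace = 0 → hact (H.act X) (H.hder X) p m = 0) → m = 0) ∧
  ∀ f : LieAlgebra.SpecialLinear.sl (Fin N) k →ₗ[k] LieHomology k L p,
    Function.Injective f → ¬ ∀ X Y : LieAlgebra.SpecialLinear.sl (Fin N) k,
      f ⁅X, Y⁆ = hact (H.act X.1) (H.hder X.1) p (f Y)

/-- the graded Euler characteristic as a product, with values in the weights `Γ'` -/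
noncomputable def eprod {I Γ' : Type*} [AddCommMonoid Γ'] (F : Finset I) (deg : I → ℕ)
    (w : I → Γ') : PowerSeries (AddMonoidAlgebra ℤ Γ') :=
  ∏ i ∈ F, (1 - PowerSeries.monomial (deg i) (AddMonoidAlgebra.single (w i) (1 : ℤ)))

end Pool.Agent.Y80.KM
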