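import Mathlib

set_option autoImplicit false

open scoped BigOperators

/-! Definitions of project KM (homology of the Tits type Lie algebras of free alternative and free
Jordan algebras). -/

namespace Pool.Agent.Y80.KM

/-! ### alternative algebras -/

section alt

variable {A : Type*} [NonUnitalNonAssocRing A]

/-- `D_{p,q} = [L_p,L_q] + [R_p,R_q] + [L_p,R_q]`, applied to `r` -/
def dop (p q r : A) : A :=
  (p * (q * r) - q * (p * r)) + ((r * q) * p - (r * p) * q) + (p * (r * q) - (p * r) * q)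

/-- the traceless part of the commutator of two `N × N` matrices over `A` -/
noncomputable def cbr (k : Type*) {A : Type*} [Field k] [NonUnitalNonAssocRing A] [Module k A]
    {N : ℕ} (M M' : Matrix (Fin N) (Fin N) A) : Matrix (Fin N) (Fin N) A :=
  (M * M' - M' * M) - Matrix.diagonal fun _ => (N : k)⁻¹ • (M * M' - M' * M).trace

/-- `∑ D_{M_ij, M'_ji}` applied to the entries of `P` -/
def dmat {N : ℕ} (M M' P : Matrix (Fin N) (Fin N) A) : Matrix (Fin N) (Fin N) A :=
  Matrix.of fun a b => ∑ i, ∑ j, dop (M i j) (M' j i) (P a b)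

end alt

/-! ### representations of `gl_N` -/

section rep

/-- the joint eigenspace of the diagonal matrix units for the weight `μ` -/
def wsp {k M : Type*} [Field k] [AddCommGroup M] [Module k M] {N : ℕ}
    (ρ : Matrix (Fin N) (Fin N) k →ₗ[k] Module.End k M) (μ : Fin N → ℤ) : Submodule k M :=
  ⨅ j, LinearMap.ker (ρ (Matrix.single j j 1) - ((μ j : ℤ) : k) • LinearMap.id)

/-- the alternating sum of the weight multiplicities that counts the invariants -/
def e0 (N : ℕ) (f : (Fin N → ℤ) → ℤ) : ℤ :=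
  ∑ σ : Equiv.Perm (Fin N), (Equiv.Perm.sign σ : ℤ) *
    f (fun i => ((σ i : ℕ) : ℤ) - ((i : ℕ) : ℤ))

/-- the weight `ε_i - ε_j` -/
def epsd {N : ℕ} (i j : Fin N) : Fin N → ℤ := Pi.single i 1 - Pi.single j 1

/-- the same for `Hom(gl_N, M)` -/
def egl (N : ℕ) (f : (Fin N → ℤ) → ℤ) : ℤ :=
  ∑ i : Fin N, ∑ j : Fin N, e0 N fun μ => f (μ + epsd i j)

end rep

/-! ### the graded Euler characteristic for `N = 3` -/

section num

/-- Laurent polynomials in the simple roots of `sl_3` -/
abbrev TC := AddMonoidAlgebra ℤ (ℤ × ℤ)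

/-- the weight `m α₁ + n α₂` -/
noncomputable def wt (m n : ℤ) : TC := AddMonoidAlgebra.single (m, n) 1

/-- `e0` in the coordinates of the simple roots -/
def e03 (f : ℤ × ℤ → ℤ) : ℤ :=
  f (0, 0) - f (1, 0) - f (0, 1) + f (2, 1) + f (1, 2) - f (2, 2)

/-- weights of `gl_3` in the simple roots -/
def glw : List (ℤ × ℤ) :=
  [(0, 0), (0, 0), (0, 0), (1, 0), (0, 1), (1, 1), (-1, 0), (0, -1), (-1, -1)]

/-- `egl` in the coordinates of the simple roots -/
def egl3 (f : ℤ × ℤ → ℤ) : ℤ := (glw.map fun ν => e03 fun μ => f (μ + ν)).sum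

/-- the graded Euler characteristic -/
noncomputable def GG (A B : ℕ → ℕ) (N : ℕ) : PowerSeries TC :=
  ∏ n ∈ Finset.Icc 1 N, ((1 - PowerSeries.monomial n (1 : TC)) ^ (2 * A n + B n) *
    (([(1, 0), (0, 1), (1, 1), (-1, 0), (0, -1), (-1, -1)] : List (ℤ × ℤ)).map fun α =>
      (1 - PowerSeries.monomial n (wt α.1 α.2)) ^ A n).prod)

end num

end Pool.Agent.Y80.KM
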