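import Pool.Agent.Y80.KM.Inst
import Pool.Agent.Y80.KM.ADefs

set_option autoImplicit false
set_option linter.unusedSectionVars false

open scoped BigOperators TensorProduct

/-! Lie algebras `L = sl_N ⊗ A ⊕ B(A)` and the matrix model. -/

namespace Pool.Agent.Y80.KM

section gen

variable {k A : Type*} [Field k] [NonUnitalNonAssocRing A] [Module k A] {N : ℕ}

theorem trace_tens (X : Sl N k) (a : A) : (Matrix.of fun i j => X.1 i j • a).trace = 0 := by
  have h : X.1.trace = 0 := X.2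
  rw [Matrix.trace]
  simp only [Matrix.diag_apply, Matrix.of_apply]
  rw [← Finset.sum_smul]
  change X.1.trace • a = 0
  rw [h, zero_smul]

variable (T : TitsData k A N)

/-- the element `X ⊗ a` -/
def tS (X : Sl N k) (a : A) : TLie T :=
  TLie.mk T (Matrix.of fun i j => X.1 i j • a) (trace_tens X a) 0

/-- the element `b` -/
def tW (b : BSp k A) : TLie T := TLie.mk T 0 (by simp) b

@[simp] theorem mat_tS (X : Sl N k) (a : A) :
    (tS T X a).mat = Matrix.of fun i j => X.1 i j • a := rfl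
@[simp] theorem b_tS (X : Sl N k) (a : A) : (tS T X a).b = 0 := rfl
@[simp] theorem mat_tW (b : BSp k A) : (tW T b).mat = 0 := rfl
@[simp] theorem b_tW (b : BSp k A) : (tW T b).b = b := rfl

variable {T}

theorem tlie_induction (θ : (Sl N k ⊗[k] A) ≃ₗ[k] slA k A N)
    (hθ : ∀ X a, ((θ (X ⊗ₜ a) : slA k A N) : Matrix (Fin N) (Fin N) A) =
      Matrix.of fun i j => X.1 i j • a)
    {p : TLie T → Prop} (hs : ∀ X a, p (tS T X a)) (hw : ∀ a b, p (tW T (wedge k A a b)))
    (hadd : ∀ x y, p x → p y → p (x + y)) (x : TLie T) : p x := by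
  have h1 : ∀ t : Sl N k ⊗[k] A, p ((θ t, 0) : slA k A N × BSp k A) := by
    intro t
    induction t using TensorProduct.induction_on with
    | zero =>
      have := hs 0 0
      have e : tS T (0 : Sl N k) (0 : A) = ((θ 0, 0) : slA k A N × BSp k A) := by
        apply TLie.ext
        · rw [mat_tS]
          change _ = ((θ 0 : slA k A N) : Matrix (Fin N) (Fin N) A)
          rw [map_zero]
          ext i j
          simp
        · rfl
      rw [← e]
      exact this
    | tmul X a =>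
      have e : tS T X a = ((θ (X ⊗ₜ a), 0) : slA k A N × BSp k A) := by
        apply TLie.ext
        · exact (hθ X a).symm
        · rfl
      rw [← e]
      exact hs X a
    | add u v hu hv =>
      have e : ((θ (u + v), 0) : slA k A N × BSp k A) =
          ((θ u, 0) : slA k A N × BSp k A) + ((θ v, 0) : slA k A N × BSp k A) := by
        rw [map_add, Prod.mk_add_mk, add_zero]
      rw [e]
      exact hadd _ _ hu hv
  have h2 : ∀ t : A ⊗[k] A, p (tW T ((brel k A).mkQ t)) := by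
    intro t
    induction t using TensorProduct.induction_on with
    | zero =>
      have := hw 0 0
      rw [map_zero] at this ⊢
      simpa using this
    | tmul a b => exact hw a b
    | add u v hu hv =>
      have e : tW T ((brel k A).mkQ (u + v)) =
          tW T ((brel k A).mkQ u) + tW T ((brel k A).mkQ v) := by
        apply TLie.ext
        · simp
        · rw [b_tW, TLie.b_add, b_tW, b_tW, map_add]
      rw [e]
      exact hadd _ _ hu hv
  obtain ⟨t, ht⟩ := θ.surjective x.1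
  obtain ⟨t', ht'⟩ := Submodule.mkQ_surjective _ x.2
  have e : x = (show TLie T from ((θ t, 0) : slA k A N × BSp k A)) +
      tW T ((brel k A).mkQ t') := by
    apply TLie.ext
    · change x.1.1 = (θ t).1 + 0
      rw [ht, add_zero]
    · change x.2 = 0 + (brel k A).mkQ t'
      rw [ht', zero_add]
  rw [e]
  exact hadd _ _ (h1 t) (h2 t')

end gen

section iso

variable {k A L : Type*} [Field k] [CharZero k] [NonUnitalNonAssocRing A] [Module k A]
  [IsScalarTower k A A] [SMulCommClass k A A] [LieRing L] [LieAlgebra k L] {N : ℕ} [NeZero N]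
  (T : TitsData k A N)

theorem tS_mix (p q : A) (X : Sl N k) (r : A) :
    ⁅tW T (wedge k A p q), tS T X r⁆ = tS T X (T.D p q r) := by
  rw [lie_eq]
  apply TLie.ext
  · rw [TLie.mat_br, mat_tW, b_tW, mat_tS, b_tS, mat_tS, TitsData.Dact_wedge]
    ext i j
    simp [cbr]
  · rw [TLie.b_br, mat_tW, b_tW, b_tS, b_tS, map_zero, add_zero]
    simp [tw]

theorem tW_tW (p q r t : A) : ⁅tW T (wedge k A p q), tW T (wedge k A r t)⁆ =
    tW T (wedge k A (T.D p q r) t + wedge k A r (T.D p q t)) := by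
  rw [lie_eq]
  apply TLie.ext
  · rw [TLie.mat_br, mat_tW, b_tW, mat_tW, b_tW, mat_tW]
    ext i j
    simp [cbr]
  · rw [TLie.b_br, mat_tW, b_tW, b_tW, b_tW, TitsData.Bact_wedge, TitsData.Dact_wedge]
    simp [tw]

theorem tw_tens (X Y : Sl N k) (p q : A) :
    tw k (Matrix.of fun i j => X.1 i j • p) (Matrix.of fun i j => Y.1 i j • q) =
      (X.1 * Y.1).trace • wedge k A p q := by
  simp only [tw, Matrix.of_apply, map_smul, LinearMap.smul_apply, smul_smul]
  rw [Matrix.trace]
  simp only [Matrix.diag_apply, Matrix.mul_apply, Finset.sum_smul, mul_comm]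

/-- products of matrices `X ⊗ p` -/
theorem mul_tens (X Y : Matrix (Fin N) (Fin N) k) (p q : A) :
    (Matrix.of fun i j => X i j • p) * (Matrix.of fun i j => Y i j • q) =
      Matrix.of fun i j => (X * Y) i j • (p * q) := by
  ext i j
  simp only [Matrix.mul_apply, Matrix.of_apply, smul_mul_smul_comm, Finset.sum_smul]

theorem glAct_tS (X Y : Sl N k) (a : A) : glAct T X.1 (tS T Y a) = tS T ⁅X, Y⁆ a := by
  apply TLie.ext
  · rw [mat_glAct, mat_tS, mat_tS]
    ext i j
    have h : (⁅X, Y⁆ : Sl N k).1 = X.1 * Y.1 - Y.1 * X.1 := rfl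
    rw [h]
    simp only [scomm, Matrix.of_apply, smul_smul, Matrix.sub_apply, Matrix.mul_apply, sub_smul,
      Finset.sum_smul]
    congr 1
    refine Finset.sum_congr rfl fun l _ => ?_
    rw [mul_comm]
  · rfl

theorem glAct_tW (X : Matrix (Fin N) (Fin N) k) (b : BSp k A) : glAct T X (tW T b) = 0 := by
  apply TLie.ext
  · rw [mat_glAct, mat_tW]
    ext i j
    simp [scomm]
  · rfl

variable {T}

/-- the Lie algebra isomorphism between the matrix model and an abstract model -/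
theorem lie_iso (θ : (Sl N k ⊗[k] A) ≃ₗ[k] slA k A N)
    (hθ : ∀ X a, ((θ (X ⊗ₜ a) : slA k A N) : Matrix (Fin N) (Fin N) A) =
      Matrix.of fun i j => X.1 i j • a)
    (s : Sl N k →ₗ[k] A →ₗ[k] L) (w : BSp k A →ₗ[k] L)
    (Ψ : TLie T ≃ₗ[k] L) (hS : ∀ X a, Ψ (tS T X a) = s X a) (hW : ∀ b, Ψ (tW T b) = w b)
    (hss : ∀ X Y p q, Ψ ⁅tS T X p, tS T Y q⁆ = ⁅s X p, s Y q⁆)
    (hB : BrB (fun a b c => T.D a b c) s w) (x y : TLie T) : Ψ ⁅x, y⁆ = ⁅Ψ x, Ψ y⁆ := by
  have swap : ∀ x y : TLie T, Ψ ⁅x, y⁆ = ⁅Ψ x, Ψ y⁆ → Ψ ⁅y, x⁆ = ⁅Ψ y, Ψ x⁆ := by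
    intro x y h
    rw [← lie_skew, map_neg, h, lie_skew]
  have hws : ∀ p q X r, Ψ ⁅tW T (wedge k A p q), tS T X r⁆ =
      ⁅Ψ (tW T (wedge k A p q)), Ψ (tS T X r)⁆ := by
    intro p q X r
    rw [tS_mix, hS, hS, hW]
    exact ((hB p q r).1 X).symm
  have hww : ∀ p q r t, Ψ ⁅tW T (wedge k A p q), tW T (wedge k A r t)⁆ =
      ⁅Ψ (tW T (wedge k A p q)), Ψ (tW T (wedge k A r t))⁆ := by
    intro p q r t
    rw [tW_tW, hW, hW, hW]
    exact ((hB p q r).2 t).symm
  induction x using tlie_induction θ hθ with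
  | hs X p =>
    induction y using tlie_induction θ hθ with
    | hs Y q => rw [hss, hS, hS]
    | hw r t => exact swap _ _ (hws r t X p)
    | hadd u v hu hv => rw [lie_add, map_add, hu, hv, map_add, lie_add]
  | hw p q =>
    induction y using tlie_induction θ hθ with
    | hs Y r => exact hws p q Y r
    | hw r t => exact hww p q r t
    | hadd u v hu hv => rw [lie_add, map_add, hu, hv, map_add, lie_add]
  | hadd u v hu hv => rw [add_lie, map_add, hu, hv, map_add, add_lie]

theorem exists_psi (θ : (Sl N k ⊗[k] A) ≃ₗ[k] slA k A N)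
    (hθ : ∀ X a, ((θ (X ⊗ₜ a) : slA k A N) : Matrix (Fin N) (Fin N) A) =
      Matrix.of fun i j => X.1 i j • a)
    (s : Sl N k →ₗ[k] A →ₗ[k] L) (w : BSp k A →ₗ[k] L) (hsum : IsSum s w) :
    ∃ Ψ : TLie T ≃ₗ[k] L, (∀ X a, Ψ (tS T X a) = s X a) ∧ ∀ b, Ψ (tW T b) = w b := by
  let e : ((Sl N k ⊗[k] A) × BSp k A) ≃ₗ[k] L := LinearEquiv.ofBijective _ hsum
  let Φ : (slA k A N × BSp k A) ≃ₗ[k] L :=
    (LinearEquiv.prodCongr θ.symm (LinearEquiv.refl k (BSp k A))).trans e
  refine ⟨(Φ : (slA k A N × BSp k A) ≃ₗ[k] L), ?_, ?_⟩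
  · intro X a
    have h1 : tS T X a = ((θ (X ⊗ₜ a), 0) : slA k A N × BSp k A) := by
      apply TLie.ext
      · exact (hθ X a).symm
      · rfl
    rw [h1]
    change e (θ.symm (θ (X ⊗ₜ a)), 0) = s X a
    rw [LinearEquiv.symm_apply_apply]
    change LinearMap.coprod (TensorProduct.lift s) w (X ⊗ₜ a, 0) = s X a
    simp
  · intro b
    change e (θ.symm 0, b) = w b
    rw [map_zero]
    change LinearMap.coprod (TensorProduct.lift s) w (0, b) = w b
    simp

theorem act_psi (θ : (Sl N k ⊗[k] A) ≃ₗ[k] slA k A N)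
    (hθ : ∀ X a, ((θ (X ⊗ₜ a) : slA k A N) : Matrix (Fin N) (Fin N) A) =
      Matrix.of fun i j => X.1 i j • a)
    (s : Sl N k →ₗ[k] A →ₗ[k] L) (w : BSp k A →ₗ[k] L)
    (Ψ : TLie T ≃ₗ[k] L) (hS : ∀ X a, Ψ (tS T X a) = s X a) (hW : ∀ b, Ψ (tW T b) = w b)
    (E : Sl N k → L →ₗ[k] L) (hE : IsSlAct s w E) (X : Sl N k) (x : TLie T) :
    Ψ (glAct T X.1 x) = E X (Ψ x) := by
  induction x using tlie_induction θ hθ with
  | hs Y a => rw [glAct_tS, hS, hS, hE.act_s]
  | hw a b => rw [glAct_tW, hW, hE.act_w, map_zero]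
  | hadd u v hu hv => rw [map_add, map_add, hu, hv, map_add, map_add]

end iso

end Pool.Agent.Y80.KM
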