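import Pool.Agent.Y80.KM.Asm
import Pool.Agent.Y201.KM.H1
import Pool.Agent.Y270.KM.Core
import Pool.Agent.Y924.KM.Euler
import Pool.Agent.Y815.KM.Chi
import Pool.Agent.Y779.KM.Prod
import Pool.Agent.Y93.KM.Group
import Pool.Agent.Y93.KM.Num
import Pool.Agent.Y899.KM.Num2
import Pool.Agent.Y708.KM.Simple
import Pool.Agent.Y556.KM.R3
import Pool.Agent.Y76.KM.R2

set_option autoImplicit false
set_option linter.unusedSectionVars false

open scoped BigOperators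

/-! The Euler characteristic argument. -/

namespace Pool.Agent.Y80.KM

universe u

/-! ### `e0` and `egl` are linear -/

theorem e0_lin {ι : Type*} (N : ℕ) (s : Finset ι) (c : ι → ℤ) (f : ι → (Fin N → ℤ) → ℤ) :
    e0 N (fun μ => ∑ p ∈ s, c p * f p μ) = ∑ p ∈ s, c p * e0 N (f p) := by
  unfold e0
  simp only [Finset.mul_sum]
  rw [Finset.sum_comm]
  refine Finset.sum_congr rfl fun p _ => Finset.sum_congr rfl fun σ _ => ?_
  ring

theorem egl_lin {ι : Type*} (N : ℕ) (s : Finset ι) (c : ι → ℤ) (f : ι → (Fin N → ℤ) → ℤ) :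
    egl N (fun μ => ∑ p ∈ s, c p * f p μ) = ∑ p ∈ s, c p * egl N (f p) := by
  unfold egl
  simp only [Finset.mul_sum]
  rw [Finset.sum_comm' (t' := Finset.univ) (s' := fun _ => s) (by simp)]
  refine Finset.sum_congr rfl fun i _ => ?_
  rw [Finset.sum_comm]
  refine Finset.sum_congr rfl fun j _ => ?_
  exact e0_lin N s c fun p μ => f p (μ + epsd i j)

theorem e0_zero (N : ℕ) : e0 N (fun _ => 0) = 0 := by
  simp [e0]

theorem egl_zero (N : ℕ) : egl N (fun _ => 0) = 0 := by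
  simp [egl, e0]

theorem chi_vanish {k L : Type u} [Field k] [CharZero k] [LieRing L] [LieAlgebra k L] {N : ℕ}
    [NeZero N] {I : Type u} (H : HData k L N I) (hR : RepN k N) (n : ℕ) (hn : 2 ≤ n)
    (hNC : ∀ p, 2 ≤ p → p ≤ n → H.NoComp p)
    (hgen : ∀ μ, hsp H.b H.γ (n, μ) ≤ Submodule.span k {x | ∃ g g' : ℕ × (Fin N → ℤ),
      g + g' = (n, μ) ∧ ∃ y ∈ hsp H.b H.γ g, ∃ z ∈ hsp H.b H.γ g', x = ⁅y, z⁆}) :
    e0 N (H.chi n) = 0 ∧ egl N (H.chi n) = 0 := by
  have h1 : H.chi n = fun μ => ∑ p ∈ Finset.range (n + 1), (-1) ^ p * H.hm p n μ :=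
    funext fun μ => Pool.Agent.Y924.KM.euler H n μ
  have h2 : ∀ p ∈ Finset.range (n + 1), e0 N (H.hm p n) = 0 ∧ egl N (H.hm p n) = 0 := by
    intro p hp
    rw [Finset.mem_range] at hp
    rcases Nat.lt_or_ge p 2 with h | h
    · have : H.hm p n = fun _ => 0 := by
        funext μ
        interval_cases p
        · exact Pool.Agent.Y924.KM.hm_zero H n (by omega) μ
        · exact Pool.Agent.Y924.KM.hm_one H n μ (hgen μ)
      rw [this]
      exact ⟨e0_zero N, egl_zero N⟩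
    · exact Pool.Agent.Y270.KM.core H hR
        (fun K h1 h2 h3 Z hZ => Pool.Agent.Y708.KM.sl_ideal K h1 h2 h3 Z hZ) p n (by omega)
        (hNC p h (by omega))
  rw [h1, e0_lin, egl_lin]
  constructor
  · apply Finset.sum_eq_zero
    intro p hp
    rw [(h2 p hp).1, mul_zero]
  · apply Finset.sum_eq_zero
    intro p hp
    rw [(h2 p hp).2, mul_zero]

theorem exists_finset {k L : Type u} [Field k] [LieRing L] [LieAlgebra k L] {N : ℕ} {I : Type u}
    (H : HData k L N I) (N0 : ℕ) : ∃ F : Finset I, ∀ i, i ∈ F ↔ (H.γ i).1 ≤ N0 := by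
  have h : {i | (H.γ i).1 ≤ N0}.Finite := by
    have : {i | (H.γ i).1 ≤ N0} ⊆ ⋃ n ∈ Finset.range (N0 + 1), {i | (H.γ i).1 = n} := by
      intro i hi
      simp only [Set.mem_iUnion, Finset.mem_range]
      exact ⟨(H.γ i).1, Nat.lt_succ_of_le hi, rfl⟩
    refine Set.Finite.subset ?_ this
    exact (Finset.range (N0 + 1)).finite_toSet.biUnion fun n _ => H.hfin n
  exact ⟨h.toFinset, fun i => by simp⟩

/-! ### `N = 3` -/

section three

variable {k A : Type u} [Field k] [CharZero k] [NonUnitalNonAssocRing A] [Module k A]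
  [IsScalarTower k A A] [SMulCommClass k A A] {T : TitsData k A 3} {𝒜 : ℕ → Submodule k A}

theorem hgen3 (h : GrData T 𝒜) (hc : T.c ≠ 0)
    (hg : ∀ n, 2 ≤ n → 𝒜 n ≤ Submodule.span k
      {x | ∃ i j, 1 ≤ i ∧ 1 ≤ j ∧ i + j = n ∧ ∃ a ∈ 𝒜 i, ∃ b ∈ 𝒜 j, x = a * b})
    (n : ℕ) (hn : 2 ≤ n) (μ : Fin 3 → ℤ) :
    hsp (tData h).b (tData h).γ (n, μ) ≤ Submodule.span k {x | ∃ g g' : ℕ × (Fin 3 → ℤ),
      g + g' = (n, μ) ∧ ∃ y ∈ hsp (tData h).b (tData h).γ g,
        ∃ z ∈ hsp (tData h).b (tData h).γ g', x = ⁅y, z⁆} := by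
  have e : ∀ p, hsp (tData h).b (tData h).γ p = lcomp T 𝒜 p.1 p.2 := hsp_eq h
  simp only [e]
  refine (Pool.Agent.Y201.KM.gen3 𝒜 T hc h.mul h.zero hg n hn μ).trans ?_
  apply Submodule.span_mono
  rintro x ⟨i, j, ν, ν', h1, h2, y, hy, z, hz, rfl⟩
  exact ⟨(i, ν), (j, ν'), by rw [Prod.mk_add_mk, h1, h2], y, hy, z, hz, rfl⟩

theorem main3 (h : GrData T 𝒜) (hc : T.c ≠ 0) (hR : RepN k 3)
    (hg : ∀ n, 2 ≤ n → 𝒜 n ≤ Submodule.span k
      {x | ∃ i j, 1 ≤ i ∧ 1 ≤ j ∧ i + j = n ∧ ∃ a ∈ 𝒜 i, ∃ b ∈ 𝒜 j, x = a * b})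
    (hd : Module.finrank k (𝒜 1) = 3)
    (hNC : ∀ p, 2 ≤ p → p ≤ 10 → (tData h).NoComp p) :
    Module.finrank k (𝒜 10) = 56961 := by
  classical
  obtain ⟨F, hF⟩ := exists_finset (tData h) 10
  have hGG : eprod F (fun i => ((tData h).γ i).1)
      (fun i => (((tData h).γ i).2 0, -((tData h).γ i).2 2)) =
      GG (fun n => Module.finrank k (𝒜 n)) (fun n => Module.finrank k (bcomp 𝒜 n)) 10 := by
    apply Pool.Agent.Y93.KM.group3 _ F 10 (tData h).hpos hF
    · intro n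
      have := card_hγ (T := T) (𝒜 := 𝒜) (n, 0)
      rw [Pool.Agent.Y936.KM.lcomp_finrank_zero T 𝒜 h.fin n] at this
      exact this
    · intro n i j hij
      have := card_hγ (T := T) (𝒜 := 𝒜) (n, epsd i j)
      rw [Pool.Agent.Y936.KM.lcomp_finrank_root T 𝒜 h.fin n i j hij] at this
      exact this
    · exact hγ_weight
  have key : ∀ n, 2 ≤ n → n ≤ 10 →
      e03 (fun μ => (PowerSeries.coeff n (GG (fun n => Module.finrank k (𝒜 n))
        (fun n => Module.finrank k (bcomp 𝒜 n)) 10)).coeff μ) = 0 ∧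
      egl3 (fun μ => (PowerSeries.coeff n (GG (fun n => Module.finrank k (𝒜 n))
        (fun n => Module.finrank k (bcomp 𝒜 n)) 10)).coeff μ) = 0 := by
    intro n hn hn2
    have h1 := chi_vanish (tData h) hR n hn (fun p hp hp2 => hNC p hp (by omega))
      (hgen3 h hc hg n hn)
    have h2 := Pool.Agent.Y815.KM.chi3 (tData h) F 10 n hn2 hF hγ_sum
      (fun w n g => Pool.Agent.Y779.KM.eprod_coeff F _ w n g)
    rw [hGG] at h2
    rw [h2.1, h2.2]
    exact h1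
  apply Pool.Agent.Y93.KM.num3 (fun n => Module.finrank k (𝒜 n))
    (fun n => Module.finrank k (bcomp 𝒜 n)) hd
  · show Module.finrank k (bcomp 𝒜 1) = 0
    rw [(Pool.Agent.Y779.KM.bcomp_one 𝒜 h.zero).2]
    exact finrank_bot k _
  · exact fun n hn hn2 => (key n hn hn2).1
  · exact fun n hn hn2 => (key n hn hn2).2

end three

end Pool.Agent.Y80.KM
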