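import Pool.Agent.Y80.KM.Main

set_option autoImplicit false
set_option linter.unusedSectionVars false

open scoped BigOperators

/-! The Euler characteristic argument for `N = 2`. -/

namespace Pool.Agent.Y80.KM

universe u

section two

variable {k A : Type u} [Field k] [CharZero k] [NonUnitalNonAssocRing A] [Module k A]
  [IsScalarTower k A A] [SMulCommClass k A A] {T : TitsData k A 2} {𝒜 : ℕ → Submodule k A}

theorem hgen2 (h : GrData T 𝒜) (hc : T.c ≠ 0) (hcomm : ∀ a b : A, a * b = b * a)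
    (hg : ∀ n, 2 ≤ n → 𝒜 n ≤ Submodule.span k
      {x | ∃ i j, 1 ≤ i ∧ 1 ≤ j ∧ i + j = n ∧ ∃ a ∈ 𝒜 i, ∃ b ∈ 𝒜 j, x = a * b})
    (n : ℕ) (hn : 2 ≤ n) (μ : Fin 2 → ℤ) :
    hsp (tData h).b (tData h).γ (n, μ) ≤ Submodule.span k {x | ∃ g g' : ℕ × (Fin 2 → ℤ),
      g + g' = (n, μ) ∧ ∃ y ∈ hsp (tData h).b (tData h).γ g,
        ∃ z ∈ hsp (tData h).b (tData h).γ g', x = ⁅y, z⁆} := by
  have e : ∀ p, hsp (tData h).b (tData h).γ p = lcomp T 𝒜 p.1 p.2 := hsp_eq h
  simp only [e]
  refine (Pool.Agent.Y201.KM.gen2 𝒜 T hc hcomm h.mul h.zero hg n hn μ).trans ?_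
  apply Submodule.span_mono
  rintro x ⟨i, j, ν, ν', h1, h2, y, hy, z, hz, rfl⟩
  exact ⟨(i, ν), (j, ν'), by rw [Prod.mk_add_mk, h1, h2], y, hy, z, hz, rfl⟩

/-- the coefficients in degree one of the product over a homogeneous basis -/
theorem eprod_one {I Γ' : Type*} [AddCommMonoid Γ'] (F : Finset I) (deg : I → ℕ)
    (w : I → Γ') (hdeg : ∀ i, 1 ≤ deg i) (hF : ∀ i, deg i = 1 → i ∈ F) (g : Γ') :
    (PowerSeries.coeff 1 (eprod F deg w)).coeff g = -({i | deg i = 1 ∧ w i = g}.ncard : ℤ) := by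
  classical
  rw [Pool.Agent.Y779.KM.eprod_coeff]
  have hz : ∀ p ∈ Finset.range (F.card + 1), p ≠ 1 → (-1 : ℤ) ^ p *
      ({S : Finset I | S ⊆ F ∧ S.card = p ∧ ∑ i ∈ S, deg i = 1 ∧ ∑ i ∈ S, w i = g}.ncard : ℤ)
        = 0 := by
    intro p _ hp
    have : {S : Finset I | S ⊆ F ∧ S.card = p ∧ ∑ i ∈ S, deg i = 1 ∧ ∑ i ∈ S, w i = g} = ∅ := by
      ext S
      simp only [Set.mem_ofPred_eq, Set.mem_empty_iff_false, iff_false]
      rintro ⟨-, h2, h3, -⟩
      have h4 : S.card ≤ ∑ i ∈ S, deg i := by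
        rw [Finset.card_eq_sum_ones]
        exact Finset.sum_le_sum fun i _ => hdeg i
      have h5 : S.card = 0 := by omega
      rw [Finset.card_eq_zero] at h5
      subst h5
      simp at h3
    rw [this]
    simp
  have hone : ({S : Finset I | S ⊆ F ∧ S.card = 1 ∧ ∑ i ∈ S, deg i = 1 ∧ ∑ i ∈ S, w i = g}.ncard)
      = ({i | deg i = 1 ∧ w i = g}.ncard) := by
    symm
    refine Set.ncard_congr (fun i _ => {i}) ?_ ?_ ?_
    · rintro i ⟨h1, h2⟩
      refine ⟨?_, Finset.card_singleton i, by simpa using h1, by simpa using h2⟩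
      rw [Finset.singleton_subset_iff]
      exact hF i h1
    · intro i j _ _ hij
      exact Finset.singleton_injective hij
    · rintro S ⟨h1, h2, h3, h4⟩
      obtain ⟨i, rfl⟩ := Finset.card_eq_one.mp h2
      exact ⟨i, ⟨by simpa using h3, by simpa using h4⟩, rfl⟩
  by_cases hcard : 1 ∈ Finset.range (F.card + 1)
  · rw [Finset.sum_eq_single 1 (fun p hp hne => hz p hp hne) (fun h => absurd hcard h), hone]
    simp
  · rw [Finset.sum_eq_zero]
    · rw [Finset.mem_range] at hcard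
      have hF0 : F = ∅ := by
        rw [← Finset.card_eq_zero]
        omega
      have : {i | deg i = 1 ∧ w i = g} = ∅ := by
        ext i
        simp only [Set.mem_ofPred_eq, Set.mem_empty_iff_false, iff_false]
        rintro ⟨h1, -⟩
        have := hF i h1
        rw [hF0] at this
        exact absurd this (Finset.notMem_empty i)
      rw [this]
      simp
    · intro p hp
      apply hz p hp
      rintro rfl
      exact hcard hp

theorem main2 (h : GrData T 𝒜) (hc : T.c ≠ 0) (hcomm : ∀ a b : A, a * b = b * a) (hR : RepN k 2)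
    (hg : ∀ n, 2 ≤ n → 𝒜 n ≤ Submodule.span k
      {x | ∃ i j, 1 ≤ i ∧ 1 ≤ j ∧ i + j = n ∧ ∃ a ∈ 𝒜 i, ∃ b ∈ 𝒜 j, x = a * b})
    (hd : Module.finrank k (𝒜 1) = 3)
    (hNC : ∀ p, 2 ≤ p → p ≤ 18 → (tData h).NoComp p) :
    Module.finrank k (𝒜 18) = 193681917 := by
  classical
  obtain ⟨F, hF⟩ := exists_finset (tData h) 18
  have hB1 : Module.finrank k (bcomp 𝒜 1) = 0 := by
    rw [(Pool.Agent.Y779.KM.bcomp_one 𝒜 h.zero).2]
    exact finrank_bot k _
  have hn0 : ∀ n, {i | (tData h).γ i = (n, 0)}.ncard =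
      Module.finrank k (𝒜 n) + Module.finrank k (bcomp 𝒜 n) := by
    intro n
    have := card_hγ (T := T) (𝒜 := 𝒜) (n, 0)
    rw [Pool.Agent.Y936.KM.lcomp_finrank_zero T 𝒜 h.fin n] at this
    rw [show {i | (tData h).γ i = (n, 0)} = {i | hγ T 𝒜 i = (n, 0)} from rfl, this]
    norm_num
  have hn1 : ∀ n, ∀ i j : Fin 2, i ≠ j → {s | (tData h).γ s = (n, epsd i j)}.ncard =
      Module.finrank k (𝒜 n) := by
    intro n i j hij
    have := card_hγ (T := T) (𝒜 := 𝒜) (n, epsd i j)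
    rw [Pool.Agent.Y936.KM.lcomp_finrank_root T 𝒜 h.fin n i j hij] at this
    exact this
  have hGJ : eprod F (fun i => ((tData h).γ i).1) (fun i => ((tData h).γ i).2 0) =
      GJ (fun n => (Module.finrank k (𝒜 n) : ℤ)) (fun n => (Module.finrank k (bcomp 𝒜 n) : ℤ))
        18 :=
    Pool.Agent.Y93.KM.group2 _ F 18 (tData h).hpos hF (fun n => Module.finrank k (𝒜 n))
      (fun n => Module.finrank k (bcomp 𝒜 n)) hn0 hn1 hγ_weight
  set P := GJ (fun n => (Module.finrank k (𝒜 n) : ℤ))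
    (fun n => (Module.finrank k (bcomp 𝒜 n) : ℤ)) 18 with hP
  have key : ∀ n, 2 ≤ n → n ≤ 18 → (PowerSeries.coeff n P).coeff 0 -
      (PowerSeries.coeff n P).coeff 1 = 0 ∧ (PowerSeries.coeff n P).coeff 1 -
      (PowerSeries.coeff n P).coeff 2 = 0 := by
    intro n hn hn2
    have h1 := chi_vanish (tData h) hR n hn (fun p hp hp2 => hNC p hp (by omega))
      (hgen2 h hc hcomm hg n hn)
    have h2 := Pool.Agent.Y815.KM.chi2 (tData h) F 18 n hn2 hF hγ_sum
      (fun w n g => Pool.Agent.Y779.KM.eprod_coeff F _ w n g) _ rfl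
    rw [hGJ, h1.1, h1.2] at h2
    have h3 := Pool.Agent.Y899.KM.GJ_symm (fun n => (Module.finrank k (𝒜 n) : ℤ))
      (fun n => (Module.finrank k (bcomp 𝒜 n) : ℤ)) 18 n 1
    rw [← hP] at h3
    obtain ⟨h4, h5⟩ := h2
    constructor
    · exact h4
    · linarith
  -- degree one
  have hw : ∀ s, ((tData h).γ s).1 = 1 → ∀ m : ℤ, (((tData h).γ s).2 0 = m) →
      ((tData h).γ s = (1, 0) ∧ m = 0) ∨ ((tData h).γ s = (1, epsd 0 1) ∧ m = 1) ∨
      ((tData h).γ s = (1, epsd 1 0) ∧ m = -1) := by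
    intro s hs m hm
    have e0 : (epsd (0 : Fin 2) 1) 0 = 1 := by decide
    have e1 : (epsd (1 : Fin 2) 0) 0 = -1 := by decide
    rcases hγ_weight (T := T) (𝒜 := 𝒜) s with h0 | ⟨a, b, hab, h0⟩
    · left
      have h0' : ((tData h).γ s).2 = 0 := h0
      refine ⟨Prod.ext hs h0', ?_⟩
      rw [← hm, h0']
      rfl
    · have h0' : ((tData h).γ s).2 = epsd a b := h0
      have hcases : ∀ a b : Fin 2, a ≠ b → (a = 0 ∧ b = 1) ∨ (a = 1 ∧ b = 0) := by decide
      rcases hcases a b hab with ⟨rfl, rfl⟩ | ⟨rfl, rfl⟩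
      · right; left
        refine ⟨Prod.ext hs h0', ?_⟩
        rw [← hm, h0', e0]
      · right; right
        refine ⟨Prod.ext hs h0', ?_⟩
        rw [← hm, h0', e1]
  have hc1 : ∀ g, (PowerSeries.coeff 1 P).coeff g =
      -({i | ((tData h).γ i).1 = 1 ∧ ((tData h).γ i).2 0 = g}.ncard : ℤ) := by
    intro g
    rw [← hGJ]
    exact eprod_one F _ _ (tData h).hpos (fun i hi => (hF i).mpr (by omega)) g
  have v0 : {i | ((tData h).γ i).1 = 1 ∧ ((tData h).γ i).2 0 = 0}.ncard = 3 := by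
    have : {i | ((tData h).γ i).1 = 1 ∧ ((tData h).γ i).2 0 = 0} =
        {i | (tData h).γ i = (1, 0)} := by
      ext s
      simp only [Set.mem_ofPred_eq]
      constructor
      · rintro ⟨h1, h2⟩
        rcases hw s h1 0 h2 with h3 | h3 | h3
        · exact h3.1
        · exact absurd h3.2 (by norm_num)
        · exact absurd h3.2 (by norm_num)
      · intro h1
        rw [h1]
        exact ⟨rfl, rfl⟩
    rw [this, hn0 1, hd, hB1]
  have v1 : {i | ((tData h).γ i).1 = 1 ∧ ((tData h).γ i).2 0 = 1}.ncard = 3 := by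
    have : {i | ((tData h).γ i).1 = 1 ∧ ((tData h).γ i).2 0 = 1} =
        {i | (tData h).γ i = (1, epsd 0 1)} := by
      ext s
      simp only [Set.mem_ofPred_eq]
      constructor
      · rintro ⟨h1, h2⟩
        rcases hw s h1 1 h2 with h3 | h3 | h3
        · exact absurd h3.2 (by norm_num)
        · exact h3.1
        · exact absurd h3.2 (by norm_num)
      · intro h1
        rw [h1]
        exact ⟨rfl, by decide⟩
    rw [this, hn1 1 0 1 (by decide), hd]
  have v2 : {i | ((tData h).γ i).1 = 1 ∧ ((tData h).γ i).2 0 = 2}.ncard = 0 := by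
    have : {i | ((tData h).γ i).1 = 1 ∧ ((tData h).γ i).2 0 = 2} = ∅ := by
      ext s
      simp only [Set.mem_ofPred_eq, Set.mem_empty_iff_false, iff_false]
      rintro ⟨h1, h2⟩
      rcases hw s h1 2 h2 with h3 | h3 | h3
      · exact absurd h3.2 (by norm_num)
      · exact absurd h3.2 (by norm_num)
      · exact absurd h3.2 (by norm_num)
    rw [this]
    simp
  have hfin := Pool.Agent.Y899.KM.num2 (fun n => (Module.finrank k (𝒜 n) : ℤ))
    (fun n => (Module.finrank k (bcomp 𝒜 n) : ℤ)) (by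
      intro n hn hn2
      rw [Pool.Agent.Y899.KM.multj_eq, ← hP]
      rcases eq_or_ne n 1 with rfl | hne
      · rw [show (0 : ℤ) + 1 = 1 from rfl, hc1 0, hc1 1, v0, v1]
        norm_num
      · exact (key n (by omega) hn2).1) (by
      intro n hn hn2
      rw [Pool.Agent.Y899.KM.multj_eq, ← hP]
      rcases eq_or_ne n 1 with rfl | hne
      · rw [show (1 : ℤ) + 1 = 2 from rfl, hc1 1, hc1 2, v1, v2, if_pos rfl]
        norm_num
      · rw [if_neg hne]
        exact (key n (by omega) hn2).2)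
  exact_mod_cast hfin

end two

end Pool.Agent.Y80.KM
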