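import Pool.Agent.Y80.KM.Conc
import Pool.Agent.Y80.KM.ADefs

set_option autoImplicit false
set_option linter.unusedSectionVars false

open scoped BigOperators TensorProduct

/-! Transport of gradings. -/

namespace Pool.Agent.Y80.KM

universe u

section tr

variable {k A A' : Type u} [Field k] [CharZero k] [NonUnitalNonAssocRing A] [Module k A]
  [IsScalarTower k A A] [SMulCommClass k A A] [NonUnitalNonAssocRing A'] [Module k A']
  [IsScalarTower k A' A'] [SMulCommClass k A' A'] {N : ℕ} [NeZero N] {T : TitsData k A N}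
  {T' : TitsData k A' N} {𝒜 : ℕ → Submodule k A}

theorem GrData.map (h : GrData T 𝒜) (φ : A ≃ₗ[k] A') (hφ : ∀ a b, φ (a * b) = φ a * φ b)
    (hD : ∀ a b c, φ (T.D a b c) = T'.D (φ a) (φ b) (φ c)) :
    GrData T' (fun n => (𝒜 n).map (φ : A →ₗ[k] A')) where
  int := by
    have h1 := (DirectSum.isInternal_submodule_iff_iSupIndep_and_iSup_eq_top 𝒜).mp h.int
    rw [DirectSum.isInternal_submodule_iff_iSupIndep_and_iSup_eq_top]
    refine ⟨?_, ?_⟩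
    · exact h1.1.map_orderIso (Submodule.orderIsoMapComap φ)
    · rw [← Submodule.map_iSup, h1.2, Submodule.map_top, LinearMap.range_eq_top]
      exact φ.surjective
  mul := by
    rintro m n _ ⟨x, hx, rfl⟩ _ ⟨y, hy, rfl⟩
    exact ⟨x * y, h.mul m n x hx y hy, hφ x y⟩
  D := by
    rintro m n l _ ⟨x, hx, rfl⟩ _ ⟨y, hy, rfl⟩ _ ⟨z, hz, rfl⟩
    exact ⟨T.D x y z, h.D m n l x hx y hy z hz, hD x y z⟩
  fin n := by
    have := h.fin n
    infer_instance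
  zero := by
    show (𝒜 0).map (φ : A →ₗ[k] A') = ⊥
    rw [h.zero, Submodule.map_bot]

theorem gen_map (hg : ∀ n, 2 ≤ n → 𝒜 n ≤ Submodule.span k
      {x | ∃ i j, 1 ≤ i ∧ 1 ≤ j ∧ i + j = n ∧ ∃ a ∈ 𝒜 i, ∃ b ∈ 𝒜 j, x = a * b})
    (φ : A ≃ₗ[k] A') (hφ : ∀ a b, φ (a * b) = φ a * φ b) (n : ℕ) (hn : 2 ≤ n) :
    (𝒜 n).map (φ : A →ₗ[k] A') ≤ Submodule.span k
      {x | ∃ i j, 1 ≤ i ∧ 1 ≤ j ∧ i + j = n ∧ ∃ a ∈ (𝒜 i).map (φ : A →ₗ[k] A'),
        ∃ b ∈ (𝒜 j).map (φ : A →ₗ[k] A'), x = a * b} := by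
  refine (Submodule.map_mono (hg n hn)).trans ?_
  rw [Submodule.map_span]
  apply Submodule.span_mono
  rintro _ ⟨_, ⟨i, j, hi, hj, hij, a, ha, b, hb, rfl⟩, rfl⟩
  exact ⟨i, j, hi, hj, hij, φ a, ⟨a, ha, rfl⟩, φ b, ⟨b, hb, rfl⟩, hφ a b⟩

end tr

section conc

variable {k A : Type u} [Field k] [CharZero k] [NonUnitalNonAssocRing A] [Module k A]
  [IsScalarTower k A A] [SMulCommClass k A A]

theorem map_dop {B C : Type*} [NonUnitalNonAssocRing B] [NonUnitalNonAssocRing C]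
    (φ : B →+ C) (hφ : ∀ a b, φ (a * b) = φ a * φ b) (a b c : B) :
    φ (dop a b c) = dop (φ a) (φ b) (φ c) := by
  simp only [dop, map_add, map_sub, hφ]

theorem map_jdop {B C : Type*} [NonUnitalNonAssocRing B] [NonUnitalNonAssocRing C]
    (φ : B →+ C) (hφ : ∀ a b, φ (a * b) = φ a * φ b) (a b c : B) :
    φ (jdop a b c) = jdop (φ a) (φ b) (φ c) := by
  simp only [jdop, map_sub, hφ]

theorem alt_gr' (φ : FreeAlt k 3 ≃ₗ[k] A) (hφ : ∀ a b, φ (a * b) = φ a * φ b)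
    (h1 : ∀ a b : A, (a * a) * b = a * (a * b)) (h2 : ∀ a b : A, (b * a) * a = b * (a * a)) :
    GrData (abgData k A h1 h2)
      (fun n => (qcomp (altRel k 3) n).map (φ : FreeAlt k 3 →ₗ[k] A)) :=
  (alt_gr k 3).map φ hφ fun a b c =>
    map_dop (φ : FreeAlt k 3 →ₗ[k] A).toAddMonoidHom hφ a b c

theorem jord_gr' (φ : FreeJord k 3 ≃ₗ[k] A) (hφ : ∀ a b, φ (a * b) = φ a * φ b)
    (hc : ∀ a b : A, a * b = b * a) (hj : ∀ a b : A, ((a * a) * b) * a = (a * a) * (b * a)) :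
    GrData (tagData k A hc hj)
      (fun n => (qcomp (jordRel k 3) n).map (φ : FreeJord k 3 →ₗ[k] A)) :=
  (jord_gr k 3).map φ hφ fun a b c =>
    map_jdop (φ : FreeJord k 3 →ₗ[k] A).toAddMonoidHom hφ a b c

theorem alt_comp' (φ : FreeAlt k 3 ≃ₗ[k] A) (hφ : ∀ a b, φ (a * b) = φ a * φ b)
    (h1 : ∀ a b : A, (a * a) * b = a * (a * b)) (h2 : ∀ a b : A, (b * a) * a = b * (a * a)) :
    ∃ p, 2 ≤ p ∧ p ≤ 10 ∧ ¬ (tData (alt_gr' φ hφ h1 h2)).NoComp p := by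
  by_contra hcon
  push Not at hcon
  have h3 := main3 (alt_gr' φ hφ h1 h2) (inv_ne_zero three_ne_zero) (repN3 k)
    (gen_map (fun n hn => Pool.Agent.Y960.KM.qcomp_gen _ hn) φ hφ)
    ((LinearEquiv.finrank_map_eq φ _).trans (Pool.Agent.Y960.KM.qcomp_one _ altRel_lin)) hcon
  have h5 := Pool.Agent.Y960.KM.alt_dim k 3 10 (by norm_num)
  have h4 : Module.finrank k (qcomp (altRel k 3) 10) = 56961 :=
    (LinearEquiv.finrank_map_eq φ _).symm.trans h3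
  rw [h4] at h5
  norm_num at h5

theorem jord_comp' (φ : FreeJord k 3 ≃ₗ[k] A) (hφ : ∀ a b, φ (a * b) = φ a * φ b)
    (hc : ∀ a b : A, a * b = b * a) (hj : ∀ a b : A, ((a * a) * b) * a = (a * a) * (b * a)) :
    ∃ p, 2 ≤ p ∧ p ≤ 18 ∧ ¬ (tData (jord_gr' φ hφ hc hj)).NoComp p := by
  by_contra hcon
  push Not at hcon
  have h3 := main2 (jord_gr' φ hφ hc hj) two_ne_zero hc (repN2 k)
    (gen_map (fun n hn => Pool.Agent.Y960.KM.qcomp_gen _ hn) φ hφ)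
    ((LinearEquiv.finrank_map_eq φ _).trans (Pool.Agent.Y960.KM.qcomp_one _ jordRel_lin)) hcon
  have h5 := Pool.Agent.Y417.KM.cohn_total k 18 (by norm_num)
  have h4 : Module.finrank k (qcomp (jordRel k 3) 18) = 193681917 :=
    (LinearEquiv.finrank_map_eq φ _).symm.trans h3
  rw [h4] at h5
  norm_num at h5

end conc

end Pool.Agent.Y80.KM
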